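import Pool.Agent.Lib.MP_d57abb_nt.Three.Prim

/-!
# A prime dividing some `k² + 3 k + 1` is a norm
-/

namespace Pool.Agent.Lib.MP_d57abb_nt.Three

open Pool.Agent.Lib.MP_d57abb_nt

theorem thue {p : ℕ} (hp : p.Prime) (k : ℕ) : ∃ x y : ℤ, 0 < y ∧ x ^ 2 < p ∧ y ^ 2 < p ∧
    (p : ℤ) ∣ x - k * y := by
  set n := Nat.sqrt p with hn
  have hn0 : 0 < n := Nat.sqrt_pos.mpr hp.pos
  have hp0 : (0 : ℝ) < p := by exact_mod_cast hp.pos
  obtain ⟨j, y, hy0, hyn, hj⟩ := Real.exists_int_int_abs_mul_sub_le ((k : ℝ) / p) hn0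
  have hnp : (p : ℝ) < ((n : ℝ) + 1) ^ 2 := by
    have := Nat.lt_succ_sqrt p
    rw [← hn] at this
    have h2 : (p : ℝ) < ((n.succ * n.succ : ℕ) : ℝ) := by exact_mod_cast this
    push_cast at h2
    linarith
  have hn1 : (0 : ℝ) < (n : ℝ) + 1 := by positivity
  refine ⟨k * y - p * j, y, hy0, ?_, ?_, ⟨-j, by ring⟩⟩
  · have h1 : |((k : ℝ) * y - p * j)| ≤ p / (n + 1) := by
      have e : (k : ℝ) * y - p * j = p * ((y : ℝ) * (k / p) - j) := by field_simp
      rw [e, abs_mul, abs_of_pos hp0, div_eq_mul_one_div (p : ℝ) ((n : ℝ) + 1)]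
      exact mul_le_mul_of_nonneg_left hj hp0.le
    have h2 : ((k : ℝ) * y - p * j) ^ 2 ≤ (p / (n + 1)) ^ 2 := by
      rw [← sq_abs]; exact pow_le_pow_left₀ (abs_nonneg _) h1 2
    have h3 : ((p : ℝ) / (n + 1)) ^ 2 < p := by
      rw [div_pow, div_lt_iff₀ (by positivity), sq (p : ℝ)]
      exact mul_lt_mul_of_pos_left hnp hp0
    have h4 : (((k * y - p * j) ^ 2 : ℤ) : ℝ) < p := by
      push_cast; linarith
    exact_mod_cast h4
  · have h1 : y ^ 2 ≤ (p : ℤ) := by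
      have h2 : y ^ 2 ≤ (n : ℤ) ^ 2 := pow_le_pow_left₀ hy0.le hyn 2
      have h3 : (n : ℤ) ^ 2 ≤ p := by
        have := Nat.sqrt_le p
        rw [← hn] at this
        have h4 : ((n * n : ℕ) : ℤ) ≤ p := by exact_mod_cast this
        push_cast at h4
        linarith
      linarith
    refine lt_of_le_of_ne h1 ?_
    intro h2
    have hpi : Prime (p : ℤ) := Nat.prime_iff_prime_int.mp hp
    have h3 : (p : ℤ) ∣ y := hpi.dvd_of_dvd_pow ⟨1, by rw [h2]; ring⟩
    have h4 := Int.le_of_dvd hy0 h3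
    have h5 : (1 : ℤ) < p := by exact_mod_cast hp.one_lt
    nlinarith

theorem even_of_nm {x y : ℤ} (h : nm (x, y) % 2 = 0) : x % 2 = 0 ∧ y % 2 = 0 := by
  unfold nm at h
  simp only at h
  have hx : x % 2 = 0 ∨ x % 2 = 1 := by omega
  have hy : y % 2 = 0 ∨ y % 2 = 1 := by omega
  have key : (x ^ 2 + 3 * x * y + y ^ 2) % 2 = ((x % 2) ^ 2 + 3 * (x % 2) * (y % 2) + (y % 2) ^ 2) % 2 := by
    have h1 : x = 2 * (x / 2) + x % 2 := by omega
    have h2 : y = 2 * (y / 2) + y % 2 := by omega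
    set a := x / 2
    set b := y / 2
    set r := x % 2
    set s := y % 2
    rw [h1, h2]
    have : (2 * a + r) ^ 2 + 3 * (2 * a + r) * (2 * b + s) + (2 * b + s) ^ 2 =
        (r ^ 2 + 3 * r * s + s ^ 2) + 2 * (2 * a ^ 2 + 2 * a * r + 6 * a * b + 3 * a * s + 3 * r * b
          + 2 * b ^ 2 + 2 * b * s) := by ring
    rw [this, Int.add_mul_emod_self_left]
  rw [key] at h
  rcases hx with hx | hx <;> rcases hy with hy | hy <;> rw [hx, hy] at h <;>
    first
    | exact ⟨hx, hy⟩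
    | (exfalso; norm_num at h)

theorem three_of_nm {x y : ℤ} (h : nm (x, y) % 3 = 0) : x % 3 = 0 ∧ y % 3 = 0 := by
  unfold nm at h
  simp only at h
  have hx : x % 3 = 0 ∨ x % 3 = 1 ∨ x % 3 = 2 := by omega
  have hy : y % 3 = 0 ∨ y % 3 = 1 ∨ y % 3 = 2 := by omega
  have key : (x ^ 2 + 3 * x * y + y ^ 2) % 3 = ((x % 3) ^ 2 + (y % 3) ^ 2) % 3 := by
    have h1 : x = 3 * (x / 3) + x % 3 := by omega
    have h2 : y = 3 * (y / 3) + y % 3 := by omega
    set a := x / 3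
    set b := y / 3
    set r := x % 3
    set s := y % 3
    rw [h1, h2]
    have : (3 * a + r) ^ 2 + 3 * (3 * a + r) * (3 * b + s) + (3 * b + s) ^ 2 =
        (r ^ 2 + s ^ 2) + 3 * (3 * a ^ 2 + 2 * a * r + (3 * a + r) * (3 * b + s)
          + 3 * b ^ 2 + 2 * b * s) := by ring
    rw [this, Int.add_mul_emod_self_left]
  rw [key] at h
  rcases hx with hx | hx | hx <;> rcases hy with hy | hy | hy <;> rw [hx, hy] at h <;>
    first
    | exact ⟨hx, hy⟩
    | (exfalso; norm_num at h)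

theorem nm_neg (x y : ℤ) : nm (-x, -y) = nm (x, y) := by unfold nm; ring

theorem ev {x y : ℤ} (h : nm (x, y) % 2 = 0) : ∃ a b : ℤ, nm (x, y) = 4 * nm (a, b) := by
  obtain ⟨h1, h2⟩ := even_of_nm h
  refine ⟨x / 2, y / 2, ?_⟩
  have e1 : x = 2 * (x / 2) := by omega
  have e2 : y = 2 * (y / 2) := by omega
  conv_lhs => rw [e1, e2]
  unfold nm; ring

theorem th {x y : ℤ} (h : nm (x, y) % 3 = 0) : ∃ a b : ℤ, nm (x, y) = 9 * nm (a, b) := by
  obtain ⟨h1, h2⟩ := three_of_nm h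
  refine ⟨x / 3, y / 3, ?_⟩
  have e1 : x = 3 * (x / 3) := by omega
  have e2 : y = 3 * (y / 3) := by omega
  conv_lhs => rw [e1, e2]
  unfold nm; ring

theorem exists_nm {p : ℕ} (hp : p.Prime) {k : ℕ} (hk : p ∣ k ^ 2 + 3 * k + 1) :
    ∃ v : ℤ × ℤ, nm v = p := by
  have hpi : Prime (p : ℤ) := Nat.prime_iff_prime_int.mp hp
  have h2 : p ≠ 2 := by
    rintro rfl
    have : (k ^ 2 + 3 * k + 1) % 2 = 1 := by
      have hk2 : k % 2 = 0 ∨ k % 2 = 1 := by omega
      rcases hk2 with h | h <;> norm_num [Nat.add_mod, Nat.pow_mod, Nat.mul_mod, h]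
    omega
  have h3 : p ≠ 3 := by
    rintro rfl
    have : (k ^ 2 + 3 * k + 1) % 3 ≠ 0 := by
      have hk3 : k % 3 = 0 ∨ k % 3 = 1 ∨ k % 3 = 2 := by omega
      rcases hk3 with h | h | h <;> norm_num [Nat.add_mod, Nat.pow_mod, Nat.mul_mod, h]
    omega
  obtain ⟨x, y, hy0, hx, hy, hd⟩ := thue hp k
  have hdk : (p : ℤ) ∣ (k : ℤ) ^ 2 + 3 * k + 1 := by exact_mod_cast hk
  have hdn : (p : ℤ) ∣ nm (x, y) := by
    have e : nm (x, y) = (x - k * y) * (x + k * y + 3 * y) + y ^ 2 * ((k : ℤ) ^ 2 + 3 * k + 1) := by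
      unfold nm; ring
    rw [e]
    exact dvd_add (Dvd.dvd.mul_right hd _) (Dvd.dvd.mul_left hdk _)
  obtain ⟨t, ht⟩ := hdn
  have hp0 : (0 : ℤ) < p := by exact_mod_cast hp.pos
  have hne : nm (x, y) ≠ 0 := by
    intro h0
    have h1 : (2 * x + 3 * y) * (2 * x + 3 * y) = 5 * y * y := by
      unfold nm at h0; simp only at h0; linear_combination 4 * h0
    have : Irrational (√(5 : ℕ)) := Nat.Prime.irrational_sqrt (by norm_num)
    apply this
    refine ⟨((2 * x + 3 * y).natAbs : ℚ) / y, ?_⟩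
    have hyr : (0 : ℝ) < y := by exact_mod_cast hy0
    push_cast
    rw [Nat.cast_natAbs]
    push_cast
    symm
    rw [Real.sqrt_eq_iff_mul_self_eq (by norm_num) (by positivity)]
    have h2 : ((2 : ℝ) * x + 3 * y) * (2 * x + 3 * y) = 5 * y * y := by exact_mod_cast h1
    rw [div_mul_div_comm, abs_mul_abs_self, h2]
    field_simp
  have ht0 : t ≠ 0 := by
    rintro rfl; apply hne; rw [ht]; ring
  have hub : nm (x, y) < 5 * p := by
    unfold nm; simp only
    nlinarith [sq_nonneg (x - y)]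
  have hlb : -(p : ℤ) * 5 < nm (x, y) := by
    unfold nm; simp only
    nlinarith [sq_nonneg (x + y)]
  have ht5 : t < 5 := by
    rw [ht] at hub
    by_contra hcon
    push Not at hcon
    nlinarith
  have ht5' : -5 < t := by
    rw [ht] at hlb
    by_contra hcon
    push Not at hcon
    nlinarith
  -- `nm = ± p` gives the conclusion
  have fin : ∀ x y : ℤ, (nm (x, y) = p ∨ nm (x, y) = -p) → ∃ v : ℤ × ℤ, nm v = p := by
    intro x y h
    rcases h with h | h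
    · exact ⟨_, h⟩
    · refine ⟨ml (x, y) (-1, 1), ?_⟩
      rw [nm_ml, h]
      unfold nm; simp
  have podd : (p : ℤ) % 2 = 1 := by
    have := hp.eq_two_or_odd
    omega
  have hp3 : (p : ℤ) % 3 ≠ 0 := by
    intro h
    have : 3 ∣ p := by omega
    exact h3 ((Nat.prime_dvd_prime_iff_eq (by norm_num) hp).mp this).symm
  clear hd hdk hk hx hy hy0 hne hub hlb hpi h2 h3 hp0
  have hcases : t = 1 ∨ t = -1 ∨ t = 2 ∨ t = -2 ∨ t = 3 ∨ t = -3 ∨ t = 4 ∨ t = -4 := by omega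
  rcases hcases with h | h | h | h | h | h | h | h
  · exact fin x y (Or.inl (by rw [ht, h]; ring))
  · exact fin x y (Or.inr (by rw [ht, h]; ring))
  · obtain ⟨a, b, e⟩ := ev (by rw [ht, h]; omega)
    rw [ht, h] at e; omega
  · obtain ⟨a, b, e⟩ := ev (by rw [ht, h]; omega)
    rw [ht, h] at e; omega
  · obtain ⟨a, b, e⟩ := th (by rw [ht, h]; omega)
    rw [ht, h] at e; omega
  · obtain ⟨a, b, e⟩ := th (by rw [ht, h]; omega)
    rw [ht, h] at e; omega
  · obtain ⟨a, b, e⟩ := ev (by rw [ht, h]; omega)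
    exact fin a b (Or.inl (by rw [ht, h] at e; omega))
  · obtain ⟨a, b, e⟩ := ev (by rw [ht, h]; omega)
    exact fin a b (Or.inr (by rw [ht, h] at e; omega))

theorem exists_PI {p : ℕ} (hp : p.Prime) (h5 : p ≠ 5) {k : ℕ} (hk : p ∣ k ^ 2 + 3 * k + 1) :
    ∃ ϖ, PI p ϖ := by
  obtain ⟨v, hv⟩ := exists_nm hp hk
  have hpi : Prime (p : ℤ) := Nat.prime_iff_prime_int.mp hp
  have hp0 : (0 : ℝ) < p := by exact_mod_cast hp.pos
  have hpq : pp v * qq v = p := by rw [pp_mul_qq, hv]; simp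
  have htr : ¬ (p : ℤ) ∣ 2 * v.1 + 3 * v.2 := by
    intro hd
    have h1 : (p : ℤ) ∣ 5 * v.2 ^ 2 := by
      have e : 5 * v.2 ^ 2 = (2 * v.1 + 3 * v.2) * (2 * v.1 + 3 * v.2) - 4 * p := by
        rw [← hv]; unfold nm; ring
      rw [e]
      exact dvd_sub (Dvd.dvd.mul_right hd _) (Dvd.intro_left _ rfl)
    have h2 : (p : ℤ) ∣ v.2 := by
      rcases hpi.dvd_or_dvd h1 with h | h
      · exfalso
        have : p ∣ 5 := by exact_mod_cast h
        exact h5 ((Nat.prime_dvd_prime_iff_eq hp (by norm_num)).mp this)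
      · exact hpi.dvd_of_dvd_pow h
    have h3 : (p : ℤ) ∣ v.1 ^ 2 := by
      have e : v.1 ^ 2 = p - v.2 * (3 * v.1 + v.2) := by
        rw [← hv]; unfold nm; ring
      rw [e]
      exact dvd_sub (dvd_refl _) (Dvd.dvd.mul_right h2 _)
    have h4 : (p : ℤ) ∣ v.1 := hpi.dvd_of_dvd_pow h3
    obtain ⟨a, ha⟩ := h4
    obtain ⟨b, hb⟩ := h2
    have h6 : (p : ℤ) * (p * (a ^ 2 + 3 * a * b + b ^ 2)) = p * 1 := by
      conv_rhs => rw [mul_one, ← hv]
      unfold nm; rw [ha, hb]; ring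
    have h7 : (p : ℤ) * (a ^ 2 + 3 * a * b + b ^ 2) = 1 :=
      mul_left_cancel₀ hpi.ne_zero h6
    have h8 : (p : ℤ) ∣ 1 := ⟨_, h7.symm⟩
    have h9 : p ∣ 1 := by exact_mod_cast h8
    exact hp.one_lt.ne' (Nat.dvd_one.mp h9)
  rcases lt_trichotomy (pp v) 0 with h | h | h
  · have hq : qq v < 0 := by
      by_contra hcon
      push Not at hcon
      have := mul_nonpos_of_nonpos_of_nonneg h.le hcon
      linarith
    refine ⟨(-v.1, -v.2), hp, ⟨?_, ?_⟩, ?_, ?_⟩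
    · have : pp (-v.1, -v.2) = - pp v := by unfold pp; push_cast; ring
      rw [this]; linarith
    · have : qq (-v.1, -v.2) = - qq v := by unfold qq; push_cast; ring
      rw [this]; linarith
    · rw [nm_neg]; exact hv
    · simp only
      intro hd
      apply htr
      have : 2 * v.1 + 3 * v.2 = -(2 * -v.1 + 3 * -v.2) := by ring
      rw [this]
      exact (dvd_neg).mpr hd
  · rw [h, zero_mul] at hpq; linarith
  · refine ⟨v, hp, ⟨h, ?_⟩, hv, htr⟩
    have : 0 < pp v * qq v := by rw [hpq]; exact hp0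
    exact (mul_pos_iff_of_pos_left h).mp this

end Pool.Agent.Lib.MP_d57abb_nt.Three
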