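import Pool.Agent.Lib.MP_d57abb_nt.Three.Thue

/-!
# Triangles and the local theorem
-/

namespace Pool.Agent.Lib.MP_d57abb_nt.Three

open Pool.Agent.Lib.MP_d57abb_nt

/-- `x` is a primitive vector close to `u` -/
def Near (u x : ℤ × ℤ) : Prop := TP x ∧ IsCoprime x.1 x.2 ∧ an u ≤ an x ∧
  an x ≤ an u + 3 / nm u ∧ nm u ≤ nm x ∧ nm x ≤ 12 * nm u

theorem Near.refl {u : ℤ × ℤ} (hu : TP u) (hc : IsCoprime u.1 u.2) : Near u u := by
  have h := hu.nm_pos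
  have h' : (0 : ℝ) < nm u := by exact_mod_cast h
  refine ⟨hu, hc, le_rfl, ?_, le_rfl, by omega⟩
  have : 0 ≤ 3 / (nm u : ℝ) := by positivity
  linarith

theorem near_of {u x : ℤ × ℤ} {ρ σ : ℝ} (hu : TP u) (hp : pp x = ρ * pp u) (hq : qq x = σ * qq u)
    (h1 : 1 ≤ σ) (h2 : σ ≤ ρ) (h3 : ρ - σ ≤ 3 / nm u) (h4 : ρ * σ ≤ 12)
    (hc : IsCoprime x.1 x.2) : Near u x := by
  obtain ⟨u1, u2⟩ := hu
  have hρ : 0 < ρ := by linarith
  have hσ : 0 < σ := by linarith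
  have hnu : (0 : ℝ) < nm u := by rw [← pp_mul_qq]; positivity
  have hnx : (nm x : ℝ) = ρ * σ * nm u := by
    rw [← pp_mul_qq, ← pp_mul_qq, hp, hq]; ring
  have hax : an x = an u + (Real.log ρ - Real.log σ) := by
    unfold an
    rw [hp, hq, Real.log_mul hρ.ne' u1.ne', Real.log_mul hσ.ne' u2.ne']; ring
  have h5 : 0 ≤ Real.log ρ - Real.log σ := by
    have := Real.log_le_log hσ h2
    linarith
  have h6 : Real.log ρ - Real.log σ ≤ 3 / nm u := by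
    rw [← Real.log_div hρ.ne' hσ.ne']
    have h7 := Real.log_le_sub_one_of_pos (div_pos hρ hσ)
    have h8 : ρ / σ - 1 = (ρ - σ) / σ := by field_simp
    rw [h8] at h7
    have h9 : (ρ - σ) / σ ≤ ρ - σ := div_le_self (by linarith) h1
    linarith
  refine ⟨⟨by rw [hp]; positivity, by rw [hq]; positivity⟩, hc, by rw [hax]; linarith,
    by rw [hax]; linarith, ?_, ?_⟩
  · have : (nm u : ℝ) ≤ nm x := by
      rw [hnx]
      have : 1 ≤ ρ * σ := by nlinarith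
      nlinarith
    exact_mod_cast this
  · have : (nm x : ℝ) ≤ 12 * nm u := by
      rw [hnx]
      exact mul_le_mul_of_nonneg_right h4 hnu.le
    exact_mod_cast this

theorem exists_tri {u : ℤ × ℤ} (hu : TP u) (hc : IsCoprime u.1 u.2) (h3 : 3 ≤ nm u) :
    ∃ y, dt u y = 1 ∧ Near u y ∧ Near u (u + y) := by
  obtain ⟨p, q, hpq⟩ := hc
  set y0 : ℤ × ℤ := (-q, p) with hy0
  have h0 : dt u y0 = 1 := by simp only [dt, hy0]; linarith
  have hu' := hu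
  obtain ⟨u1, u2⟩ := hu'
  set n : ℤ := ⌊2 - qq y0 / qq u⌋ with hn
  have hn1 : (n : ℝ) ≤ 2 - qq y0 / qq u := Int.floor_le _
  have hn2 : 2 - qq y0 / qq u < n + 1 := Int.lt_floor_add_one _
  set y : ℤ × ℤ := y0 + n • u with hy
  have hd : dt u y = 1 := by rw [hy, dt_add_right, dt_smul_right, dt_self, h0]; ring
  set σ : ℝ := qq y0 / qq u + n with hσ
  have hq : qq y = σ * qq u := by
    rw [hy, qq_add, qq_smul, hσ]; field_simp
  have hσ1 : 1 < σ := by rw [hσ]; linarith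
  have hσ2 : σ ≤ 2 := by rw [hσ]; linarith
  have hnu : (3 : ℝ) ≤ nm u := by exact_mod_cast h3
  have hnu0 : (0 : ℝ) < nm u := by linarith
  set ρ : ℝ := σ + √5 / nm u with hρ
  have hp : pp y = ρ * pp u := by
    have h1 := dt_eq u y
    rw [hd, hq] at h1
    push_cast at h1
    have h2 : pp y * qq u = (ρ * pp u) * qq u := by
      have h3 : √5 / (nm u : ℝ) * (pp u * qq u) = √5 := by
        rw [pp_mul_qq]; field_simp
      rw [hρ]
      linear_combination (-1 : ℝ) * h1 - h3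
    exact mul_right_cancel₀ u2.ne' h2
  have s5 := sqrt5_hi
  have s5' := sqrt5_lo
  have hs : √5 / (nm u : ℝ) ≤ 3 / nm u := by
    apply div_le_div_of_nonneg_right _ hnu0.le
    linarith
  have hs0 : 0 < √5 / (nm u : ℝ) := by positivity
  have hs1 : √5 / (nm u : ℝ) ≤ 1 := by
    rw [div_le_one hnu0]; linarith
  refine ⟨y, hd, near_of hu hp hq hσ1.le (by linarith) (by linarith) ?_ (coprime_right hd), ?_⟩
  · nlinarith
  · have hd2 : dt u (u + y) = 1 := by rw [dt_add_right, dt_self, hd]; ring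
    refine near_of (ρ := 1 + ρ) (σ := 1 + σ) hu ?_ ?_ (by linarith) (by linarith) (by linarith) ?_
      (coprime_right hd2)
    · rw [pp_add, hp]; ring
    · rw [qq_add, hq]; ring
    · nlinarith

theorem tri {p : ℕ} {ϖ : ℤ × ℤ} (hϖ : PI p ϖ) (d : ℤ × ℤ → ZMod 3) {u : ℤ × ℤ} (hu : TP u)
    (hc : IsCoprime u.1 u.2) (h3 : 3 ≤ nm u) :
    (∃ z v w, CP d (12 * nm u) z v w ∧ Near u z) ∨ (∃ b, Near u b ∧ ¬ Bad p ϖ b ∧ d b ≠ 0) := by
  obtain ⟨y, hd, ny, ns⟩ := exists_tri hu hc h3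
  have nu := Near.refl hu hc
  have hd2 : dt u (u + y) = 1 := by rw [dt_add_right, dt_self, hd]; ring
  have hd3 : dt (u + y) y = 1 := by rw [dt_add_left, dt_self, hd]; ring
  have bd : ∀ x, Near u x → (nm x : ℝ) ≤ 12 * nm u := by
    intro x hx
    exact_mod_cast hx.2.2.2.2.2
  by_cases e1 : d u + d y = 0
  · exact Or.inl ⟨u, u, y, ⟨hu, hu, ny.1, hd, e1, rel_left _ _, bd _ nu, bd _ ny⟩, nu⟩
  by_cases e2 : d u + d (u + y) = 0
  · exact Or.inl ⟨u, u, u + y, ⟨hu, hu, ns.1, hd2, e2, rel_left _ _, bd _ nu, bd _ ns⟩, nu⟩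
  by_cases e3 : d (u + y) + d y = 0
  · exact Or.inl ⟨y, u + y, y, ⟨ny.1, ns.1, ny.1, hd3, e3, rel_right _ _, bd _ ns, bd _ ny⟩, ny⟩
  right
  have pick : ∀ x x', Near u x → Near u x' → dt x x' = 1 → d x ≠ 0 → d x' ≠ 0 →
      ∃ b, Near u b ∧ ¬ Bad p ϖ b ∧ d b ≠ 0 := by
    intro x x' n1 n2 h1 h2 h3
    by_cases hb : Bad p ϖ x
    · exact ⟨x', n2, fun hb' => not_both hϖ h1 hb hb', h3⟩
    · exact ⟨x, n1, hb, h2⟩
  by_cases f1 : d u = 0
  · rw [f1, zero_add] at e1 e2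
    exact pick _ _ ns ny hd3 e2 e1
  by_cases f2 : d y = 0
  · rw [f2, add_zero] at e3
    exact pick _ _ nu ns hd2 f1 e3
  exact pick _ _ nu ny hd f1 f2

theorem start {p : ℕ} {ϖ : ℤ × ℤ} (hϖ : PI p ϖ) {a : ℤ × ℤ} (ha : TP a)
    (hc : IsCoprime a.1 a.2) (h3 : 3 ≤ nm a) : ∃ u, Near a u ∧ ¬ Bad p ϖ u := by
  obtain ⟨y, hd, ny, _⟩ := exists_tri ha hc h3
  by_cases hb : Bad p ϖ a
  · exact ⟨y, ny, fun hb' => not_both hϖ hd hb hb'⟩
  · exact ⟨a, Near.refl ha hc, hb⟩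

theorem fin_aux : ∀ r a b c d e : ZMod 3, r ≠ 0 → a ≠ 0 → b ≠ 0 → c ≠ 0 → d ≠ 0 → e ≠ 0 →
    (a + 1 * r + b = 0 ∨ b + 1 * r + c = 0 ∨ c + 1 * r + d = 0 ∨ d + 1 * r + e = 0 ∨
      a + 2 * r + c = 0 ∨ b + 2 * r + d = 0 ∨ c + 2 * r + e = 0 ∨ a + 3 * r + d = 0 ∨
      b + 3 * r + e = 0) := by
  have key : ∀ x : ZMod 3, x ≠ 0 → x = 1 ∨ x = 2 := by decide
  intro r a b c d e hr ha hb hc hd he
  rcases key r hr with rfl | rfl <;> rcases key a ha with rfl | rfl <;>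
    rcases key b hb with rfl | rfl <;> rcases key c hc with rfl | rfl <;>
    rcases key d hd with rfl | rfl <;> rcases key e he with rfl | rfl <;> decide

theorem fin_fact {r : ZMod 3} (hr : r ≠ 0) (τ : Fin 5 → ZMod 3) (hτ : ∀ i, τ i ≠ 0) :
    ∃ (i j : Fin 5) (m : ℕ), (j : ℕ) = i + m ∧ τ i + (m : ZMod 3) * r + τ j = 0 := by
  rcases fin_aux r (τ 0) (τ 1) (τ 2) (τ 3) (τ 4) hr (hτ 0) (hτ 1) (hτ 2) (hτ 3) (hτ 4) with
    h | h | h | h | h | h | h | h | h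
  · exact ⟨0, 1, 1, rfl, by exact_mod_cast h⟩
  · exact ⟨1, 2, 1, rfl, by exact_mod_cast h⟩
  · exact ⟨2, 3, 1, rfl, by exact_mod_cast h⟩
  · exact ⟨3, 4, 1, rfl, by exact_mod_cast h⟩
  · exact ⟨0, 2, 2, rfl, by exact_mod_cast h⟩
  · exact ⟨1, 3, 2, rfl, by exact_mod_cast h⟩
  · exact ⟨2, 4, 2, rfl, by exact_mod_cast h⟩
  · exact ⟨0, 3, 3, rfl, by exact_mod_cast h⟩
  · exact ⟨1, 4, 3, rfl, by exact_mod_cast h⟩

theorem CP.mono {d : ℤ × ℤ → ZMod 3} {X Y : ℝ} {z v w : ℤ × ℤ} (h : CP d X z v w) (hXY : X ≤ Y) :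
    CP d Y z v w :=
  ⟨h.tz, h.tv, h.tw, h.dvw, h.sum, h.rel, h.nv.trans hXY, h.nw.trans hXY⟩

/-- **The local theorem.** -/
theorem loc {p : ℕ} {ϖ : ℤ × ℤ} (hϖ : PI p ϖ) {h : ℕ → ZMod 3}
    (hh : ∀ m n : ℕ, 0 < m → 0 < n → h (m * n) = h m + h n) (hr : lam h ϖ ≠ 0) (c : ZMod 3)
    {a : ℤ × ℤ} (ha : TP a) (hc : IsCoprime a.1 a.2) (hM : 100 * (p : ℝ) ^ 4 ≤ nm a) :
    ∃ j : Fin 5, ∃ z v w, CP (fun v => lam h v + c) (288 * (p : ℝ) ^ 4 * nm a) z v w ∧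
      |an z - (an a + (j : ℕ) * an ϖ)| ≤ 6 / nm a := by
  set d : ℤ × ℤ → ZMod 3 := fun v => lam h v + c with hd
  have hp1 : (1 : ℝ) ≤ p := by exact_mod_cast hϖ.pr.one_lt.le
  have hp4 : (1 : ℝ) ≤ (p : ℝ) ^ 4 := one_le_pow₀ hp1
  have hna : (100 : ℝ) ≤ nm a := by linarith
  have hna' : 3 ≤ nm a := by
    have : (3 : ℝ) ≤ nm a := by linarith
    exact_mod_cast this
  obtain ⟨u, nu, hub⟩ := start hϖ ha hc hna'
  obtain ⟨tu, cu, a1, a2, n1, n2⟩ := nu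
  have n1' : (nm a : ℝ) ≤ nm u := by exact_mod_cast n1
  have n2' : (nm u : ℝ) ≤ 12 * nm a := by exact_mod_cast n2
  have hnu0 : (0 : ℝ) < nm u := by linarith
  have hna0 : (0 : ℝ) < nm a := by linarith
  by_contra hcon
  have hpj : ∀ j : ℕ, j ≤ 4 → (1 : ℝ) ≤ (p : ℝ) ^ j ∧ (p : ℝ) ^ j ≤ (p : ℝ) ^ 4 := fun j hj =>
    ⟨one_le_pow₀ hp1, pow_le_pow_right₀ hp1 hj⟩
  -- facts on `u_j`
  have nuj : ∀ j : ℕ, (nm (pw ϖ j u) : ℝ) = nm u * (p : ℝ) ^ j := by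
    intro j
    rw [pw_nm hϖ]; push_cast; ring
  have auj : ∀ j : ℕ, an (pw ϖ j u) = an u + j * an ϖ := fun j => pw_an hϖ tu j
  have h3a : 3 / (nm u : ℝ) ≤ 3 / nm a := div_le_div_of_nonneg_left (by norm_num) hna0 n1'
  have key : ∀ j : Fin 5, ∃ b, Near (pw ϖ j u) b ∧ ¬ Bad p ϖ b ∧ d b ≠ 0 := by
    intro j
    have hj4 : (j : ℕ) ≤ 4 := by omega
    obtain ⟨q1, q2⟩ := hpj j hj4
    have hge : (nm u : ℝ) ≤ nm (pw ϖ j u) := by
      rw [nuj]; exact le_mul_of_one_le_right hnu0.le q1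
    have h3 : 3 ≤ nm (pw ϖ j u) := by
      have : (3 : ℝ) ≤ nm (pw ϖ j u) := by linarith
      exact_mod_cast this
    rcases tri hϖ d (pw_TP hϖ tu j) (pw_prim hϖ cu hub j).1 h3 with hl | hrr
    · exfalso
      obtain ⟨z, v, w, hcp, nz⟩ := hl
      apply hcon
      refine ⟨j, z, v, w, hcp.mono ?_, ?_⟩
      · rw [nuj]
        calc 12 * ((nm u : ℝ) * (p : ℝ) ^ (j : ℕ)) ≤ 12 * ((12 * nm a) * (p : ℝ) ^ 4) := by gcongr
          _ ≤ 288 * (p : ℝ) ^ 4 * nm a := by nlinarith [mul_pos hna0 (by linarith : (0 : ℝ) < (p : ℝ) ^ 4)]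
      · obtain ⟨_, _, k1, k2, _, _⟩ := nz
        rw [auj] at k1 k2
        have h5 : 3 / (nm (pw ϖ j u) : ℝ) ≤ 3 / nm a :=
          div_le_div_of_nonneg_left (by norm_num) hna0 (n1'.trans hge)
        rw [abs_le]
        have h6 : (6 : ℝ) / nm a = 3 / nm a + 3 / nm a := by ring
        have h7 : 0 < 3 / (nm a : ℝ) := by positivity
        constructor <;> linarith
    · exact hrr
  choose b hb using key
  obtain ⟨i, j, m, hjm, hsum⟩ := fin_fact hr (fun j => d (b j)) (fun j => (hb j).2.2)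
  obtain ⟨⟨tbi, cbi, ai1, ai2, ni1, ni2⟩, bbi, dbi⟩ := hb i
  obtain ⟨⟨tbj, cbj, aj1, aj2, nj1, nj2⟩, bbj, dbj⟩ := hb j
  set A := pw ϖ m (b i) with hA
  have tA : TP A := pw_TP hϖ tbi m
  have cA := (pw_prim hϖ cbi bbi m).1
  have dA : d A = d (b i) + m * lam h ϖ := by
    rw [hd, hA]
    simp only
    rw [pw_lam hh hϖ tbi m]; ring
  have hsum' : d A + d (b j) = 0 := by rw [dA]; exact hsum
  have dA0 : d A ≠ 0 := by
    intro h0; rw [h0, zero_add] at hsum'; exact dbj hsum'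
  have aA : an A = an (b i) + m * an ϖ := pw_an hϖ tbi m
  rw [auj] at ai1 ai2 aj1 aj2
  have hi4 : (i : ℕ) ≤ 4 := by omega
  have hj4 : (j : ℕ) ≤ 4 := by omega
  have hjr : ((j : ℕ) : ℝ) = i + m := by exact_mod_cast hjm
  have hgei : (nm u : ℝ) ≤ nm (pw ϖ i u) := by
    rw [nuj]; exact le_mul_of_one_le_right hnu0.le (hpj i hi4).1
  have hgej : (nm u : ℝ) ≤ nm (pw ϖ j u) := by
    rw [nuj]; exact le_mul_of_one_le_right hnu0.le (hpj j hj4).1
  have h3i : 3 / (nm (pw ϖ i u) : ℝ) ≤ 3 / nm u := div_le_div_of_nonneg_left (by norm_num) hnu0 hgei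
  have h3j : 3 / (nm (pw ϖ j u) : ℝ) ≤ 3 / nm u := div_le_div_of_nonneg_left (by norm_num) hnu0 hgej
  set s : ℝ := an u + (j : ℕ) * an ϖ with hs
  set t : ℝ := s + 3 / nm u with ht
  have sA : s ≤ an A := by
    rw [hs, aA, hjr]; linarith
  have At : an A ≤ t := by
    rw [ht, hs, aA, hjr]; linarith
  have sB : s ≤ an (b j) := aj1
  have Bt : an (b j) ≤ t := by rw [ht]; linarith
  have hnA : (nm A : ℝ) ≤ 12 * (p : ℝ) ^ 4 * nm u := by
    have h5 : (nm A : ℝ) = nm (b i) * (p : ℝ) ^ m := by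
      rw [hA, pw_nm hϖ]; push_cast; ring
    have h6 : (nm (b i) : ℝ) ≤ 12 * (nm u * (p : ℝ) ^ (i : ℕ)) := by
      rw [← nuj]; exact_mod_cast ni2
    rw [h5]
    calc (nm (b i) : ℝ) * (p : ℝ) ^ m ≤ 12 * (nm u * (p : ℝ) ^ (i : ℕ)) * (p : ℝ) ^ m := by gcongr
      _ = 12 * (p : ℝ) ^ (j : ℕ) * nm u := by rw [hjm, pow_add]; ring
      _ ≤ 12 * (p : ℝ) ^ 4 * nm u := by
          gcongr
  have hnB : (nm (b j) : ℝ) ≤ 12 * (p : ℝ) ^ 4 * nm u := by
    have h6 : (nm (b j) : ℝ) ≤ 12 * (nm u * (p : ℝ) ^ (j : ℕ)) := by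
      rw [← nuj]; exact_mod_cast nj2
    calc (nm (b j) : ℝ) ≤ 12 * (nm u * (p : ℝ) ^ (j : ℕ)) := h6
      _ = 12 * (p : ℝ) ^ (j : ℕ) * nm u := by ring
      _ ≤ 12 * (p : ℝ) ^ 4 * nm u := by
          gcongr
  have hts : t - s ≤ 1 := by
    rw [ht]
    have : 3 / (nm u : ℝ) ≤ 1 := by rw [div_le_one hnu0]; linarith
    linarith
  have hX0 : 0 ≤ 12 * (p : ℝ) ^ 4 * nm u := by positivity
  have hX : ∀ x, TP x → Hull A (b j) x → 2 ≤ nm x ∧ (nm x : ℝ) ≤ 288 * (p : ℝ) ^ 4 * nm a := by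
    intro x tx Hx
    constructor
    · by_contra hlt
      have hx1 : nm x = 1 := by
        have := tx.nm_pos; omega
      have l1 := Hx.le_an tA tbj tx sA sB
      have l2 := Hx.an_le tA tbj tx At Bt
      have hη1 : 3 / (nm u : ℝ) ≤ 1 := by rw [div_le_one hnu0]; linarith
      have h5 := dt_sq_le tA tx hη1 (by rw [abs_le]; constructor <;> linarith)
      rw [hx1] at h5
      push_cast at h5
      have h6 : 2 * (3 / (nm u : ℝ)) ^ 2 * nm A ≤ 216 / 100 := by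
        calc 2 * (3 / (nm u : ℝ)) ^ 2 * nm A ≤ 2 * (3 / (nm u : ℝ)) ^ 2 * (12 * (p : ℝ) ^ 4 * nm u) := by
              gcongr
          _ = 216 * ((p : ℝ) ^ 4 / nm u) := by field_simp; ring
          _ ≤ 216 * (1 / 100) := by
              apply mul_le_mul_of_nonneg_left _ (by norm_num)
              rw [div_le_div_iff₀ hnu0 (by norm_num)]
              linarith
          _ = 216 / 100 := by ring
      have h7 : (dt A x : ℝ) ^ 2 < 1 := by linarith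
      have h8 : dt A x = 0 := by
        have h9 : (dt A x) ^ 2 < 1 := by exact_mod_cast h7
        by_contra hne
        have := Int.one_le_abs hne
        nlinarith [sq_abs (dt A x)]
      obtain ⟨n, hn⟩ := smul_of_dt_zero cA h8
      have h9 : n ^ 2 * nm A = 1 := by rw [← nm_smul, ← hn, hx1]
      have hAbig : 3 ≤ nm A := by
        have h10 : (3 : ℝ) ≤ nm A := by
          have h5 : (nm A : ℝ) = nm (b i) * (p : ℝ) ^ m := by
            rw [hA, pw_nm hϖ]; push_cast; ring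
          have h6 : (nm (pw ϖ i u) : ℝ) ≤ nm (b i) := by exact_mod_cast ni1
          have h7 : (1 : ℝ) ≤ (p : ℝ) ^ m := one_le_pow₀ hp1
          have h8 : (nm u : ℝ) ≤ nm (b i) := hgei.trans h6
          rw [h5]
          have h12 : (3 : ℝ) ≤ nm (b i) := by linarith
          have h13 : (0 : ℝ) ≤ nm (b i) := by linarith
          exact h12.trans (le_mul_of_one_le_right h13 h7)
        exact_mod_cast h10
      have h11 : nm A ∣ 1 := ⟨n ^ 2, by linarith⟩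
      have := Int.le_of_dvd one_pos h11
      omega
    · have := Hx.nm_le tA tbj tx hX0 sA sB At Bt hts hnA hnB
      refine this.trans ?_
      calc 2 * (12 * (p : ℝ) ^ 4 * nm u) ≤ 2 * (12 * (p : ℝ) ^ 4 * (12 * nm a)) := by gcongr
        _ = 288 * (p : ℝ) ^ 4 * nm a := by ring
  obtain ⟨z, v, w, Hz, hcp⟩ := seg d cA cbj tA tbj dA0 hsum' hX
  apply hcon
  refine ⟨j, z, v, w, hcp, ?_⟩
  have l1 := Hz.le_an tA tbj hcp.tz sA sB
  have l2 := Hz.an_le tA tbj hcp.tz At Bt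
  rw [abs_le]
  have h6 : (6 : ℝ) / nm a = 3 / nm a + 3 / nm a := by ring
  have h7 : 0 < 3 / (nm a : ℝ) := by positivity
  constructor <;> linarith

end Pool.Agent.Lib.MP_d57abb_nt.Three
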