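import Mathlib

/-!
# The second moment of the divisor function along `k² + 3 k + 1`
-/

open Finset

namespace Pool.Agent.Lib.MP_d57abb_nt.Three

/-- number of divisors -/
def dv (n : ℕ) : ℕ := n.divisors.card

open Pointwise in
theorem dv_mul_le (a b : ℕ) : dv (a * b) ≤ dv a * dv b := by
  unfold dv
  rw [Nat.divisors_mul]
  exact Finset.card_mul_le

theorem dv_pos {n : ℕ} (hn : 0 < n) : 1 ≤ dv n := by
  unfold dv
  exact Finset.card_pos.mpr ⟨1, Nat.one_mem_divisors.mpr hn.ne'⟩

theorem dv_le_self (n : ℕ) : dv n ≤ n := Nat.card_divisors_le_self n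

theorem dv_prime {p : ℕ} (hp : p.Prime) : dv p = 2 := by
  unfold dv
  rw [hp.divisors, Finset.card_pair hp.one_lt.ne]

/-- splitting -/
theorem split {y M c : ℕ} (hy : 1 ≤ y) (hM : 1 ≤ M) (hc : 1 ≤ c) : ∀ r n : ℕ, 0 < n →
    n ≤ c * y ^ r → (∀ m, m ∣ n → m ≤ y → dv m ≤ M) → dv n ≤ c * (2 * M) ^ r := by
  intro r
  induction r with
  | zero =>
    intro n _ h1 _
    rw [pow_zero, mul_one] at *
    exact (dv_le_self n).trans h1
  | succ r ih =>
    intro n hn h1 hmax
    rcases Nat.lt_or_ge y n with hyn | hyn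
    · obtain ⟨m, hm, hmm⟩ := Finset.exists_max_image (n.divisors.filter (fun m => m ≤ y)) id
        ⟨1, Finset.mem_filter.mpr ⟨Nat.one_mem_divisors.mpr hn.ne', hy⟩⟩
      rw [Finset.mem_filter, Nat.mem_divisors] at hm
      obtain ⟨⟨hmn, _⟩, hmy⟩ := hm
      obtain ⟨t, ht⟩ := hmn
      have ht1 : t ≠ 1 := by
        rintro rfl
        rw [mul_one] at ht; omega
      obtain ⟨q, hq, hqt⟩ := Nat.exists_prime_and_dvd ht1
      obtain ⟨s, hs⟩ := hqt
      have hn' : n = (m * q) * s := by rw [ht, hs]; ring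
      have hm0 : 0 < m := by
        rcases Nat.eq_zero_or_pos m with h | h
        · rw [h, zero_mul] at ht; omega
        · exact h
      have hs0 : 0 < s := by
        rcases Nat.eq_zero_or_pos s with h | h
        · rw [h, mul_zero] at hn'; omega
        · exact h
      have hbig : y < m * q := by
        by_contra hcon
        push Not at hcon
        have := hmm (m * q) (by
          rw [Finset.mem_filter, Nat.mem_divisors]
          exact ⟨⟨⟨s, hn'⟩, hn.ne'⟩, hcon⟩)
        simp only [id] at this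
        have h2 := hq.two_le
        nlinarith
      have hsle : s ≤ c * y ^ r := by
        by_contra hcon
        push Not at hcon
        have h2 : (c * y ^ r) * y < s * (m * q) := by
          calc (c * y ^ r) * y ≤ s * y := Nat.mul_le_mul_right _ hcon.le
            _ < s * (m * q) := Nat.mul_lt_mul_of_pos_left hbig hs0
        have h3 : s * (m * q) = n := by rw [hn']; ring
        have h4 : (c * y ^ r) * y = c * y ^ (r + 1) := by ring
        omega
      have hds := ih s hs0 hsle (fun d hd hdy => hmax d (hd.trans ⟨m * q, by rw [hn']; ring⟩) hdy)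
      have hdm := hmax m ⟨t, ht⟩ hmy
      calc dv n = dv ((m * q) * s) := by rw [← hn']
        _ ≤ dv (m * q) * dv s := dv_mul_le _ _
        _ ≤ (dv m * dv q) * dv s := Nat.mul_le_mul_right _ (dv_mul_le _ _)
        _ ≤ (M * 2) * (c * (2 * M) ^ r) := by
            rw [dv_prime hq]
            exact Nat.mul_le_mul (Nat.mul_le_mul_right _ hdm) hds
        _ = c * (2 * M) ^ (r + 1) := by ring
    · have h2 := hmax n (dvd_refl n) hyn
      have h3 : 1 ≤ c * (2 * M) ^ r := Nat.mul_pos hc (by positivity)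
      calc dv n ≤ M := h2
        _ ≤ (2 * M) * (c * (2 * M) ^ r) := by nlinarith
        _ = c * (2 * M) ^ (r + 1) := by ring

/-- `25` never divides `k² + 3 k + 1` -/
theorem not_25 (k : ℕ) : ¬ 25 ∣ k ^ 2 + 3 * k + 1 := by
  intro h
  have h1 : (k ^ 2 + 3 * k + 1) % 25 = 0 := Nat.mod_eq_zero_of_dvd h
  have h2 : k % 25 < 25 := Nat.mod_lt _ (by norm_num)
  have h3 : (k ^ 2 + 3 * k + 1) % 25 = ((k % 25) ^ 2 + 3 * (k % 25) + 1) % 25 := by
    simp [Nat.add_mod, Nat.pow_mod, Nat.mul_mod]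
  rw [h3] at h1
  generalize k % 25 = r at h1 h2
  interval_cases r <;> norm_num at h1

/-- the number of roots modulo `m` -/
theorem roots_le {m : ℕ} (hm : 0 < m) :
    ((Finset.range m).filter (fun k => m ∣ k ^ 2 + 3 * k + 1)).card ≤ dv m := by
  rcases Finset.eq_empty_or_nonempty ((Finset.range m).filter (fun k => m ∣ k ^ 2 + 3 * k + 1)) with
    h0 | ⟨k₀, hk₀⟩
  · rw [h0]; simp
  rw [Finset.mem_filter] at hk₀
  obtain ⟨_, hk0⟩ := hk₀
  have hmz : (0 : ℤ) < m := by exact_mod_cast hm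
  -- facts on one root
  have key : ∀ k : ℕ, m ∣ k ^ 2 + 3 * k + 1 → ∃ m1 : ℕ,
      m = Int.gcd ((k₀ : ℤ) - k) m * m1 ∧ (m1 : ℤ) ∣ (k₀ : ℤ) + k + 3 ∧
      Nat.Coprime (Int.gcd ((k₀ : ℤ) - k) m) m1 := by
    intro k hk
    set g := Int.gcd ((k₀ : ℤ) - k) m with hg
    have hgm : g ∣ m := by
      have : (g : ℤ) ∣ m := Int.gcd_dvd_right ..
      exact_mod_cast this
    have hg0 : 0 < g := Nat.pos_of_dvd_of_pos hgm hm
    obtain ⟨m1, hm1⟩ := hgm
    have hd1 : (m : ℤ) ∣ ((k₀ : ℤ) - k) * ((k₀ : ℤ) + k + 3) := by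
      have e : ((k₀ : ℤ) - k) * ((k₀ : ℤ) + k + 3) =
          ((k₀ ^ 2 + 3 * k₀ + 1 : ℕ) : ℤ) - ((k ^ 2 + 3 * k + 1 : ℕ) : ℤ) := by push_cast; ring
      rw [e]
      exact dvd_sub (by exact_mod_cast hk0) (by exact_mod_cast hk)
    have hd2 : (m : ℤ) ∣ (g : ℤ) * ((k₀ : ℤ) + k + 3) := by
      have := dvd_gcd_mul_of_dvd_mul hd1
      rw [← Int.coe_gcd, Int.gcd_comm, ← hg] at this
      exact this
    have hd3 : (m1 : ℤ) ∣ (k₀ : ℤ) + k + 3 := by
      have e : (m : ℤ) = g * m1 := by exact_mod_cast hm1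
      rw [e] at hd2
      exact Int.dvd_of_mul_dvd_mul_left (by exact_mod_cast hg0.ne') hd2
    refine ⟨m1, hm1, hd3, ?_⟩
    rw [Nat.coprime_iff_gcd_eq_one]
    by_contra hne
    obtain ⟨q, hq, hqd⟩ := Nat.exists_prime_and_dvd hne
    have hqg : q ∣ g := hqd.trans (Nat.gcd_dvd_left _ _)
    have hqm1 : q ∣ m1 := hqd.trans (Nat.gcd_dvd_right _ _)
    have q1 : (q : ℤ) ∣ (k₀ : ℤ) - k := by
      have h1 : (g : ℤ) ∣ (k₀ : ℤ) - k := Int.gcd_dvd_left ..
      exact (by exact_mod_cast hqg : (q : ℤ) ∣ (g : ℤ)).trans h1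
    have q2 : (q : ℤ) ∣ (k₀ : ℤ) + k + 3 := (by exact_mod_cast hqm1 : (q : ℤ) ∣ (m1 : ℤ)).trans hd3
    have q3 : (q : ℤ) ∣ 2 * k₀ + 3 := by
      have := dvd_add q1 q2
      have e : (k₀ : ℤ) - k + (k₀ + k + 3) = 2 * k₀ + 3 := by ring
      rw [e] at this; exact this
    have hqm : q * q ∣ m := by
      rw [hm1]; exact Nat.mul_dvd_mul hqg hqm1
    have q4 : (q : ℤ) ∣ ((k₀ ^ 2 + 3 * k₀ + 1 : ℕ) : ℤ) := by
      have : q ∣ k₀ ^ 2 + 3 * k₀ + 1 := (Dvd.intro _ rfl : q ∣ q * q).trans (hqm.trans hk0)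
      exact_mod_cast this
    have q5 : (q : ℤ) ∣ 5 := by
      have e : (5 : ℤ) = (2 * k₀ + 3) * (2 * k₀ + 3) - 4 * ((k₀ ^ 2 + 3 * k₀ + 1 : ℕ) : ℤ) := by
        push_cast; ring
      rw [e]
      exact dvd_sub (Dvd.dvd.mul_left q3 _) (Dvd.dvd.mul_left q4 _)
    have q6 : q ∣ 5 := by exact_mod_cast q5
    have q7 : q = 5 := (Nat.prime_dvd_prime_iff_eq hq (by norm_num)).mp q6
    rw [q7] at hqm
    exact not_25 k₀ ((by norm_num : 25 ∣ 5 * 5).trans (hqm.trans hk0))
  unfold dv
  apply Finset.card_le_card_of_injOn (fun k : ℕ => Int.gcd ((k₀ : ℤ) - (k : ℤ)) m)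
  · intro k hk
    rw [Finset.mem_coe, Finset.mem_filter] at hk
    obtain ⟨m1, h1, _, _⟩ := key k hk.2
    rw [Finset.mem_coe, Nat.mem_divisors]
    exact ⟨⟨m1, h1⟩, hm.ne'⟩
  · intro k hk k' hk' hkk
    rw [Finset.mem_coe, Finset.mem_filter, Finset.mem_range] at hk hk'
    obtain ⟨m1, h1, h2, h3⟩ := key k hk.2
    obtain ⟨m2, h1', h2', h3'⟩ := key k' hk'.2
    simp only at hkk
    set g := Int.gcd ((k₀ : ℤ) - k) m with hg
    rw [← hkk] at h1' h3'
    have hg0 : 0 < g := Nat.pos_of_dvd_of_pos ⟨m1, h1⟩ hm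
    have h12 : m1 = m2 := Nat.eq_of_mul_eq_mul_left hg0 (h1.symm.trans h1')
    rw [← h12] at h2'
    have e1 : (g : ℤ) ∣ (k : ℤ) - k' := by
      have a1 : (g : ℤ) ∣ (k₀ : ℤ) - k := Int.gcd_dvd_left ..
      have a2 : (g : ℤ) ∣ (k₀ : ℤ) - k' := by rw [hkk]; exact Int.gcd_dvd_left ..
      have := dvd_sub a2 a1
      have e : (k₀ : ℤ) - k' - (k₀ - k) = k - k' := by ring
      rw [e] at this; exact this
    have e2 : (m1 : ℤ) ∣ (k : ℤ) - k' := by
      have := dvd_sub h2 h2'
      have e : (k₀ : ℤ) + k + 3 - (k₀ + k' + 3) = k - k' := by ring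
      rw [e] at this; exact this
    have e3 : (m : ℤ) ∣ (k : ℤ) - k' := by
      have hc : IsCoprime (g : ℤ) (m1 : ℤ) := Nat.isCoprime_iff_coprime.mpr h3
      have := hc.mul_dvd e1 e2
      rw [h1]; push_cast; exact this
    have e4 : |(k : ℤ) - k'| < m := by
      rw [abs_lt]
      constructor <;> omega
    have e5 : (k : ℤ) - k' = 0 := Int.eq_zero_of_abs_lt_dvd e3 e4
    omega

theorem count_dvd {m x : ℕ} (hm : 0 < m) :
    ((Finset.Icc 1 x).filter (fun k => m ∣ k ^ 2 + 3 * k + 1)).card ≤ dv m * (x / m + 1) := by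
  calc ((Finset.Icc 1 x).filter (fun k => m ∣ k ^ 2 + 3 * k + 1)).card
      ≤ (((Finset.range m).filter (fun k => m ∣ k ^ 2 + 3 * k + 1)) ×ˢ
          Finset.range (x / m + 1)).card := by
        apply Finset.card_le_card_of_injOn (fun k => (k % m, k / m))
        · intro k hk
          rw [Finset.mem_coe, Finset.mem_filter, Finset.mem_Icc] at hk
          rw [Finset.mem_coe, Finset.mem_product, Finset.mem_filter, Finset.mem_range,
            Finset.mem_range]
          refine ⟨⟨Nat.mod_lt _ hm, ?_⟩, ?_⟩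
          · simp only
            have h1 : (k % m) ^ 2 + 3 * (k % m) + 1 ≡ k ^ 2 + 3 * k + 1 [MOD m] :=
              Nat.ModEq.add_right _ (((Nat.mod_modEq k m).pow 2).add ((Nat.mod_modEq k m).mul_left 3))
            exact (Nat.modEq_zero_iff_dvd).mp (h1.trans ((Nat.modEq_zero_iff_dvd).mpr hk.2))
          · simp only
            have := Nat.div_le_div_right (c := m) hk.1.2
            omega
        · intro a _ b _ hab
          simp only [Prod.mk.injEq] at hab
          rw [← Nat.div_add_mod a m, ← Nat.div_add_mod b m, hab.1, hab.2]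
    _ ≤ dv m * (x / m + 1) := by
        rw [Finset.card_product, Finset.card_range]
        exact Nat.mul_le_mul_right _ (roots_le hm)

theorem sum_inv_le (x : ℕ) (hx : 1 ≤ x) : ∑ m ∈ Finset.Icc 1 x, (1 : ℝ) / m ≤ 1 + Real.log x := by
  induction x, hx using Nat.le_induction with
  | base => simp
  | succ n hn ih =>
    rw [Finset.sum_Icc_succ_top (by omega)]
    have hn0 : (0 : ℝ) < n := by exact_mod_cast (by omega : 0 < n)
    have h1 : (1 : ℝ) / ((n + 1 : ℕ) : ℝ) ≤ Real.log ((n + 1 : ℕ) : ℝ) - Real.log n := by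
      push_cast
      have h2 := Real.log_le_sub_one_of_pos (show 0 < (n : ℝ) / (n + 1) by positivity)
      rw [Real.log_div hn0.ne' (by positivity)] at h2
      have h3 : (n : ℝ) / (n + 1) - 1 = - (1 / ((n : ℝ) + 1)) := by field_simp; ring
      rw [h3] at h2
      linarith
    linarith

theorem sum_dv_le (x : ℕ) (hx : 1 ≤ x) (s : ℕ) :
    ∑ m ∈ Finset.Icc 1 x, ((dv m : ℝ)) ^ s / m ≤ (1 + Real.log x) ^ (2 ^ s) := by
  induction s with
  | zero => simpa using sum_inv_le x hx
  | succ s ih =>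
    have hS0 : 0 ≤ ∑ m ∈ Finset.Icc 1 x, ((dv m : ℝ)) ^ s / m :=
      Finset.sum_nonneg fun m _ => by positivity
    have h1 : ∑ m ∈ Finset.Icc 1 x, ((dv m : ℝ)) ^ (s + 1) / m ≤
        ∑ q ∈ (Finset.Icc 1 x) ×ˢ (Finset.Icc 1 x),
          ((dv q.1 : ℝ)) ^ s / q.1 * (((dv q.2 : ℝ)) ^ s / q.2) := by
      calc ∑ m ∈ Finset.Icc 1 x, ((dv m : ℝ)) ^ (s + 1) / m
          ≤ ∑ m ∈ Finset.Icc 1 x, ∑ q ∈ ((Finset.Icc 1 x) ×ˢ (Finset.Icc 1 x)).filter
              (fun q => q.1 * q.2 = m), ((dv q.1 : ℝ)) ^ s / q.1 * (((dv q.2 : ℝ)) ^ s / q.2) := by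
            apply Finset.sum_le_sum
            intro m hm
            rw [Finset.mem_Icc] at hm
            have hm0 : (0 : ℝ) < m := by exact_mod_cast (by omega : 0 < m)
            have hcard : (dv m : ℝ) ≤ (((Finset.Icc 1 x) ×ˢ (Finset.Icc 1 x)).filter
              (fun q => q.1 * q.2 = m)).card := by
              have : dv m ≤ (((Finset.Icc 1 x) ×ˢ (Finset.Icc 1 x)).filter
                (fun q => q.1 * q.2 = m)).card := by
                unfold dv
                apply Finset.card_le_card_of_injOn (fun a => (a, m / a))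
                · intro a ha
                  rw [Finset.mem_coe, Nat.mem_divisors] at ha
                  obtain ⟨⟨b, hb⟩, _⟩ := ha
                  have ha0 : 0 < a := by
                    rcases Nat.eq_zero_or_pos a with h | h
                    · rw [h, zero_mul] at hb; omega
                    · exact h
                  have hb0 : 0 < b := by
                    rcases Nat.eq_zero_or_pos b with h | h
                    · rw [h, mul_zero] at hb; omega
                    · exact h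
                  have hmb : m / a = b := by rw [hb]; exact Nat.mul_div_cancel_left _ ha0
                  rw [Finset.mem_coe, Finset.mem_filter, Finset.mem_product, Finset.mem_Icc,
                    Finset.mem_Icc]
                  simp only
                  rw [hmb]
                  have ha1 : a ≤ a * b := Nat.le_mul_of_pos_right _ hb0
                  have hb1 : b ≤ a * b := Nat.le_mul_of_pos_left _ ha0
                  exact ⟨⟨⟨ha0, by omega⟩, hb0, by omega⟩, hb.symm⟩
                · intro a _ b _ hab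
                  simp only [Prod.mk.injEq] at hab
                  exact hab.1
              exact_mod_cast this
            calc ((dv m : ℝ)) ^ (s + 1) / m = dv m * ((dv m : ℝ) ^ s / m) := by ring
              _ ≤ (((Finset.Icc 1 x) ×ˢ (Finset.Icc 1 x)).filter
                    (fun q => q.1 * q.2 = m)).card * ((dv m : ℝ) ^ s / m) := by gcongr
              _ = ∑ q ∈ ((Finset.Icc 1 x) ×ˢ (Finset.Icc 1 x)).filter
                    (fun q => q.1 * q.2 = m), ((dv m : ℝ) ^ s / m) := by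
                  rw [Finset.sum_const, nsmul_eq_mul]
              _ ≤ _ := by
                  apply Finset.sum_le_sum
                  intro q hq
                  rw [Finset.mem_filter] at hq
                  have e : (m : ℝ) = q.1 * q.2 := by exact_mod_cast hq.2.symm
                  rw [div_mul_div_comm, ← e, ← mul_pow]
                  apply div_le_div_of_nonneg_right _ hm0.le
                  apply pow_le_pow_left₀ (by positivity)
                  have := dv_mul_le q.1 q.2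
                  rw [hq.2] at this
                  exact_mod_cast this
        _ ≤ _ := by
            apply Finset.sum_fiberwise_le_sum_of_sum_fiber_nonneg
            intro y _
            exact Finset.sum_nonneg fun q _ => by positivity
    refine h1.trans ?_
    rw [Finset.sum_product]
    simp only
    rw [← Finset.sum_mul_sum, pow_succ 2 s, pow_mul, ← sq]
    exact pow_le_pow_left₀ hS0 ih 2

/-- **The second moment.** -/
theorem moment {x : ℕ} (hx : 1 ≤ x) :
    ∑ k ∈ Finset.Icc 1 x, ((dv (k ^ 2 + 3 * k + 1) : ℝ)) ^ 2 ≤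
      800 * x * (1 + Real.log x) ^ 32 := by
  have hx0 : (0 : ℝ) < x := by exact_mod_cast (by omega : 0 < x)
  -- pointwise
  have hpt : ∀ k ∈ Finset.Icc 1 x, ((dv (k ^ 2 + 3 * k + 1) : ℝ)) ^ 2 ≤
      ∑ m ∈ Finset.Icc 1 x, if m ∣ k ^ 2 + 3 * k + 1 then 400 * ((dv m : ℝ)) ^ 4 else 0 := by
    intro k hk
    rw [Finset.mem_Icc] at hk
    set n := k ^ 2 + 3 * k + 1 with hn
    have hn0 : 0 < n := by positivity
    obtain ⟨m, hm, hmm⟩ := Finset.exists_max_image (n.divisors.filter (fun m => m ≤ x)) dv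
      ⟨1, Finset.mem_filter.mpr ⟨Nat.one_mem_divisors.mpr hn0.ne', hx⟩⟩
    rw [Finset.mem_filter, Nat.mem_divisors] at hm
    obtain ⟨⟨hmn, _⟩, hmx⟩ := hm
    have hm0 : 0 < m := Nat.pos_of_dvd_of_pos hmn hn0
    have h1 := split (y := x) (M := dv m) (c := 5) hx (dv_pos hm0) (by norm_num) 2 n hn0
      (by rw [hn]; nlinarith) (fun d hd hdx => hmm d (by
        rw [Finset.mem_filter, Nat.mem_divisors]; exact ⟨⟨hd, hn0.ne'⟩, hdx⟩))
    have h2 : (dv n : ℝ) ≤ 5 * (2 * dv m) ^ 2 := by exact_mod_cast h1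
    calc ((dv n : ℝ)) ^ 2 ≤ (5 * (2 * (dv m : ℝ)) ^ 2) ^ 2 := pow_le_pow_left₀ (by positivity) h2 2
      _ = if m ∣ n then 400 * ((dv m : ℝ)) ^ 4 else 0 := by rw [if_pos hmn]; ring
      _ ≤ _ := Finset.single_le_sum (f := fun m => if m ∣ n then 400 * ((dv m : ℝ)) ^ 4 else 0)
          (fun i _ => by positivity) (Finset.mem_Icc.mpr ⟨hm0, hmx⟩)
  refine (Finset.sum_le_sum hpt).trans ?_
  rw [Finset.sum_comm]
  have hin : ∀ m ∈ Finset.Icc 1 x, ∑ k ∈ Finset.Icc 1 x,
      (if m ∣ k ^ 2 + 3 * k + 1 then 400 * ((dv m : ℝ)) ^ 4 else 0) ≤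
      800 * x * (((dv m : ℝ)) ^ 5 / m) := by
    intro m hm
    rw [Finset.mem_Icc] at hm
    have hm0 : (0 : ℝ) < m := by exact_mod_cast (by omega : 0 < m)
    rw [← Finset.sum_filter, Finset.sum_const, nsmul_eq_mul]
    have h1 : ((((Finset.Icc 1 x).filter (fun k => m ∣ k ^ 2 + 3 * k + 1)).card : ℕ) : ℝ) ≤
        dv m * (((x / m : ℕ) : ℝ) + 1) := by
      exact_mod_cast count_dvd (m := m) (x := x) (by omega)
    have h2 : ((x / m : ℕ) : ℝ) ≤ x / m := Nat.cast_div_le
    have h3 : (1 : ℝ) ≤ x / m := by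
      rw [le_div_iff₀ hm0, one_mul]; exact_mod_cast hm.2
    calc _ ≤ (dv m * (((x / m : ℕ) : ℝ) + 1)) * (400 * ((dv m : ℝ)) ^ 4) := by gcongr
      _ ≤ (dv m * ((x : ℝ) / m + x / m)) * (400 * ((dv m : ℝ)) ^ 4) := by gcongr
      _ = 800 * x * (((dv m : ℝ)) ^ 5 / m) := by ring
  refine (Finset.sum_le_sum hin).trans ?_
  rw [← Finset.mul_sum]
  apply mul_le_mul_of_nonneg_left _ (by positivity)
  exact sum_dv_le x hx 5

end Pool.Agent.Lib.MP_d57abb_nt.Three
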