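import Pool.Agent.Lib.MP_d57abb_nt.Three.Tri
import Pool.Agent.Lib.MP_d57abb_nt.Three.Mom
import Pool.Agent.Lib.MP_d57abb_nt.Plus

/-!
# Counting
-/

namespace Pool.Agent.Lib.MP_d57abb_nt.Three

open Pool.Agent.Lib.MP_d57abb_nt

theorem unit_case {e f : ℝ} {n : ℤ} (p1 : 0 < e) (p2 : 0 < f) (p3 : e * f = 1)
    (p4 : e + f = n) : (e = 1 ∧ f = 1) ∨ 2 * Real.log al ≤ |2 * Real.log e| := by
  rcases le_or_gt n 2 with h2 | h3
  · left
    have h4 : e + f ≤ 2 := by rw [p4]; exact_mod_cast h2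
    have h5 : (e - f) ^ 2 ≤ 0 := by nlinarith
    have h6 : e = f := by nlinarith [sq_nonneg (e - f)]
    have h7 : e = 1 := by
      rw [← h6] at p3
      nlinarith
    exact ⟨h7, by rw [← h6]; exact h7⟩
  · right
    have h4 : 3 ≤ e + f := by
      rw [p4]; exact_mod_cast h3
    have hal : 0 < al := by linarith [al_lo]
    have hbe : 0 < be := by linarith [be_lo]
    have h6 : 0 ≤ (e - al) * (e - be) := by
      have h7 : (e - al) * (e - be) = e * (e + f - 3) := by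
        have h8 := al_add_be
        have h9 := al_mul_be
        linear_combination (-e) * h8 + h9 - p3
      rw [h7]
      exact mul_nonneg p1.le (by linarith)
    have h7 : al ≤ e ∨ e ≤ be := by
      by_contra hcon
      push Not at hcon
      have : (e - al) * (e - be) < 0 :=
        mul_neg_of_neg_of_pos (by linarith [hcon.1]) (by linarith [hcon.2])
      linarith
    rcases h7 with h7 | h7
    · have := Real.log_le_log hal h7
      exact le_trans (by linarith) (le_abs_self _)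
    · have h8 := Real.log_le_log p1 h7
      have h9 : Real.log be = - Real.log al := by
        have : Real.log al + Real.log be = 0 := by
          rw [← Real.log_mul hal.ne' hbe.ne', al_mul_be, Real.log_one]
        linarith
      exact le_trans (by linarith) (neg_le_abs _)

theorem uniq3 {v w v' w' z z' : ℤ × ℤ} {x y : ℤ} (hv : TP v) (hw : TP w) (hv' : TP v')
    (hw' : TP w') (hz : TP z) (h : dt v w = 1) (h' : dt v' w' = 1) (hk : kk v w = kk v' w')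
    (hn : nm v = nm v') (ez : z = x • v + y • w) (ez' : z' = x • v' + y • w')
    (hang : |an z - an z'| < 2 * Real.log al) : z = z' := by
  have e1 : pp v * qq w = pp v' * qq w' := by rw [pp_mul_qq', pp_mul_qq', h, h', hk]
  have e2 : qq v * pp w = qq v' * pp w' := by rw [qq_mul_pp', qq_mul_pp', h, h', hk]
  have e3 : pp v * qq v = pp v' * qq v' := by rw [pp_mul_qq, pp_mul_qq, hn]
  obtain ⟨a1, a2⟩ := hv
  obtain ⟨b1, b2⟩ := hw
  obtain ⟨a1', a2'⟩ := hv'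
  obtain ⟨b1', b2'⟩ := hw'
  obtain ⟨z1, z2⟩ := hz
  set ε : ℤ × ℤ := (w.2 * v'.1 - v.2 * w'.1, w.2 * v'.2 - v.2 * w'.2) with hε
  have f1 : pp ε = w.2 * pp v' - v.2 * pp w' := by
    unfold pp; simp only [hε]; push_cast; ring
  have f2 : qq ε = w.2 * qq v' - v.2 * qq w' := by
    unfold qq; simp only [hε]; push_cast; ring
  have hdr : (v.1 : ℝ) * w.2 - w.1 * v.2 = 1 := by
    have : ((dt v w : ℤ) : ℝ) = 1 := by rw [h]; norm_num
    unfold dt at this; push_cast at this; exact this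
  have g1 : pp w' * pp v = pp w * pp v' := by
    have : (pp w' * pp v) * (qq v * qq v') = (pp w * pp v') * (qq v * qq v') := by
      calc (pp w' * pp v) * (qq v * qq v') = (qq v' * pp w') * (pp v * qq v) := by ring
        _ = (qq v * pp w) * (pp v' * qq v') := by rw [← e2, e3]
        _ = _ := by ring
    exact mul_right_cancel₀ (by positivity) this
  have g2 : qq w' * qq v = qq w * qq v' := by
    have : (qq w' * qq v) * (pp v * pp v') = (qq w * qq v') * (pp v * pp v') := by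
      calc (qq w' * qq v) * (pp v * pp v') = (pp v' * qq w') * (pp v * qq v) := by ring
        _ = (pp v * qq w) * (pp v' * qq v') := by rw [← e1, e3]
        _ = _ := by ring
    exact mul_right_cancel₀ (by positivity) this
  have r1 : pp ε * pp v = pp v' := by
    rw [f1]
    have : (w.2 : ℝ) * pp v - v.2 * pp w = 1 := by
      unfold pp; linear_combination hdr
    linear_combination (-(v.2 : ℝ)) * g1 + pp v' * this
  have r2 : qq ε * qq v = qq v' := by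
    rw [f2]
    have : (w.2 : ℝ) * qq v - v.2 * qq w = 1 := by
      unfold qq; linear_combination hdr
    linear_combination (-(v.2 : ℝ)) * g2 + qq v' * this
  have t1 : pp ε * pp w = pp w' := by
    have : (pp ε * pp w) * pp v = pp w' * pp v := by
      calc (pp ε * pp w) * pp v = pp w * (pp ε * pp v) := by ring
        _ = pp w' * pp v := by rw [r1, g1]
    exact mul_right_cancel₀ a1.ne' this
  have t2 : qq ε * qq w = qq w' := by
    have : (qq ε * qq w) * qq v = qq w' * qq v := by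
      calc (qq ε * qq w) * qq v = qq w * (qq ε * qq v) := by ring
        _ = qq w' * qq v := by rw [r2, g2]
    exact mul_right_cancel₀ a2.ne' this
  have p1 : 0 < pp ε := by
    have : 0 < pp ε * pp v := by rw [r1]; exact a1'
    exact (mul_pos_iff_of_pos_right a1).mp this
  have p2 : 0 < qq ε := by
    have : 0 < qq ε * qq v := by rw [r2]; exact a2'
    exact (mul_pos_iff_of_pos_right a2).mp this
  have p3 : pp ε * qq ε = 1 := by
    have : (pp ε * qq ε) * (pp v * qq v) = 1 * (pp v * qq v) := by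
      calc (pp ε * qq ε) * (pp v * qq v) = (pp ε * pp v) * (qq ε * qq v) := by ring
        _ = 1 * (pp v * qq v) := by rw [r1, r2, e3]; ring
    exact mul_right_cancel₀ (by positivity) this
  have p4 : pp ε + qq ε = ((2 * ε.1 + 3 * ε.2 : ℤ) : ℝ) := by
    unfold pp qq; push_cast
    linear_combination (ε.2 : ℝ) * al_add_be
  -- the same for `z`
  have s1 : pp ε * pp z = pp z' := by
    rw [ez, ez', pp_add, pp_add, pp_smul, pp_smul, pp_smul, pp_smul, ← r1, ← t1]; ring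
  have s2 : qq ε * qq z = qq z' := by
    rw [ez, ez', qq_add, qq_add, qq_smul, qq_smul, qq_smul, qq_smul, ← r2, ← t2]; ring
  rcases unit_case p1 p2 p3 p4 with ⟨h7, h8⟩ | h7
  · rw [h7, one_mul] at s1
    rw [h8, one_mul] at s2
    exact ext_of s1 s2
  · exfalso
    have h5 : an z' - an z = 2 * Real.log (pp ε) := by
      unfold an
      rw [← s1, ← s2, Real.log_mul p1.ne' z1.ne', Real.log_mul p2.ne' z2.ne']
      have h6 : Real.log (pp ε) + Real.log (qq ε) = 0 := by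
        rw [← Real.log_mul p1.ne' p2.ne', p3, Real.log_one]
      linarith
    rw [abs_sub_comm, h5] at hang
    linarith

/-- the pairs `(k, u)` with `k ≤ M` (`k = 0` allowed), `h (k² + 3 k + 1) = c`,
`u ∣ k² + 3 k + 1` -/
def T0 (h : ℕ → ZMod 3) (c : ZMod 3) (M : ℕ) : Finset (Σ _ : ℕ, ℕ) :=
  ((Finset.Icc 0 M).filter (fun k => h (k ^ 2 + 3 * k + 1) = c)).sigma
    (fun k => (k ^ 2 + 3 * k + 1).divisors)

/-- the counting set -/
def F3 (h : ℕ → ZMod 3) (c : ZMod 3) (N : ℕ) : Finset ℕ :=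
  (Finset.Icc 1 N).filter (fun k => h (k ^ 2 + 3 * k + 1) = c)

/-- the same with `k > 0` -/
def T1 (h : ℕ → ZMod 3) (c : ZMod 3) (M : ℕ) : Finset (Σ _ : ℕ, ℕ) :=
  (F3 h c M).sigma (fun k => (k ^ 2 + 3 * k + 1).divisors)

theorem card_T0 (h : ℕ → ZMod 3) (c : ZMod 3) (M : ℕ) : (T0 h c M).card ≤ (T1 h c M).card + 1 := by
  have hsub : T0 h c M ⊆ T1 h c M ∪ {⟨0, 1⟩} := by
    rintro ⟨k, u⟩ hk
    unfold T0 at hk
    rw [Finset.mem_sigma, Finset.mem_filter, Finset.mem_Icc] at hk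
    obtain ⟨⟨⟨_, h1⟩, h2⟩, h3⟩ := hk
    rcases Nat.eq_zero_or_pos k with h0 | h0
    · apply Finset.mem_union_right
      simp only at h0 h3
      subst h0
      simp at h3
      rw [h3]; simp
    · apply Finset.mem_union_left
      unfold T1 F3
      rw [Finset.mem_sigma, Finset.mem_filter, Finset.mem_Icc]
      exact ⟨⟨⟨h0, h1⟩, h2⟩, h3⟩
  refine (Finset.card_le_card hsub).trans ((Finset.card_union_le _ _).trans ?_)
  simp

theorem T1_mono (h : ℕ → ZMod 3) (c : ZMod 3) {M M' : ℕ} (hM : M ≤ M') :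
    (T1 h c M).card ≤ (T1 h c M').card := by
  apply Finset.card_le_card
  unfold T1 F3
  apply Finset.sigma_mono
  · apply Finset.filter_subset_filter
    exact Finset.Icc_subset_Icc_right hM
  · intro i; exact Finset.Subset.refl _

theorem CP.mem {h : ℕ → ZMod 3} (hh : ∀ m n : ℕ, 0 < m → 0 < n → h (m * n) = h m + h n)
    {c : ZMod 3} {z v w : ℤ × ℤ} {M : ℕ} (hcp : CP (fun v => lam h v + c) M z v w) :
    ∃ p ∈ T0 h c M, kk v w = p.1 ∧ nm v = p.2 := by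
  obtain ⟨tz, tv, tw, hd, hsum, _, nv, nw⟩ := hcp
  obtain ⟨k, hk⟩ := Int.eq_ofNat_of_zero_le (kk_nonneg tv tw hd)
  obtain ⟨u, hu⟩ := Int.eq_ofNat_of_zero_le tv.nm_pos.le
  obtain ⟨u', hu'⟩ := Int.eq_ofNat_of_zero_le tw.nm_pos.le
  have hf : k ^ 2 + 3 * k + 1 = u * u' := by
    have := kk_eq hd
    rw [hk, hu, hu'] at this
    exact_mod_cast this
  have hupos : 0 < u := by
    have := tv.nm_pos; rw [hu] at this; exact_mod_cast this
  have hupos' : 0 < u' := by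
    have := tw.nm_pos; rw [hu'] at this; exact_mod_cast this
  refine ⟨⟨k, u⟩, ?_, hk, hu⟩
  unfold T0
  rw [Finset.mem_sigma]
  refine ⟨Finset.mem_filter.mpr ⟨Finset.mem_Icc.mpr ⟨Nat.zero_le _, ?_⟩, ?_⟩, ?_⟩
  · have := kk_le tv tw hd (X := (M : ℝ)) (by positivity) nv nw
    rw [hk] at this
    exact_mod_cast this
  · simp only at hsum ⊢
    rw [hf, hh _ _ hupos hupos']
    have e1 : lam h v = h u := by unfold lam; rw [hu]; simp
    have e2 : lam h w = h u' := by unfold lam; rw [hu']; simp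
    rw [e1, e2] at hsum
    have h3 : (3 : ZMod 3) = 0 := by decide
    linear_combination hsum - c * h3
  · rw [Nat.mem_divisors]
    exact ⟨⟨u', hf⟩, by positivity⟩

/-- primitive vectors of size `Q` -/
def AQ (Q : ℕ) : Finset (ℕ × ℕ) := (Pr Q).filter (fun p => Q < 8 * p.1)

theorem card_AQ {Q : ℕ} (hQ : 2 ≤ Q) : (Q : ℝ) ^ 2 / 8 ≤ (AQ Q).card := by
  have h1 := card_Pr hQ
  have h2 : (Pr Q).card ≤ (AQ Q).card + (Q / 8) * Q := by
    have hsub : Pr Q ⊆ AQ Q ∪ (Finset.Icc 1 (Q / 8)) ×ˢ (Finset.Icc 1 Q) := by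
      intro p hp
      by_cases h : Q < 8 * p.1
      · exact Finset.mem_union_left _ (Finset.mem_filter.mpr ⟨hp, h⟩)
      · apply Finset.mem_union_right
        unfold Pr at hp
        rw [Finset.mem_filter, Finset.mem_product, Finset.mem_Icc, Finset.mem_Icc] at hp
        rw [Finset.mem_product, Finset.mem_Icc, Finset.mem_Icc]
        exact ⟨⟨hp.1.1.1, by omega⟩, hp.1.2⟩
    refine (Finset.card_le_card hsub).trans ((Finset.card_union_le _ _).trans ?_)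
    rw [Finset.card_product, Nat.card_Icc, Nat.card_Icc, Nat.add_sub_cancel, Nat.add_sub_cancel]
  have h3 : ((Pr Q).card : ℝ) ≤ (AQ Q).card + ((Q / 8 : ℕ) : ℝ) * Q := by exact_mod_cast h2
  have h4 : ((Q / 8 : ℕ) : ℝ) ≤ (Q : ℝ) / 8 := Nat.cast_div_le
  have h5 : (0 : ℝ) ≤ Q := by positivity
  nlinarith

/-- the data attached to a primitive vector -/
def J3 (ϖ : ℤ × ℤ) (Q R : ℕ) (a : ℕ × ℕ)
    (x : Fin 5 × (Fin 3 × Fin 3) × Fin 2 × ℕ × (Σ _ : ℕ, ℕ)) : Prop :=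
  ∃ z v w : ℤ × ℤ, TP z ∧ TP v ∧ TP w ∧ dt v w = 1 ∧
    |an z - (an ((a.1 : ℤ), (a.2 : ℤ)) + (x.1 : ℕ) * an ϖ)| ≤ 6 / nm ((a.1 : ℤ), (a.2 : ℤ)) ∧
    z = ((x.2.1.1 : ℤ) - 1) • v + ((x.2.1.2 : ℤ) - 1) • w ∧
    (x.2.2.1 = 0 ↔ an ((a.1 : ℤ), (a.2 : ℤ)) < Real.log al) ∧
    ⌊4 * (Q : ℝ) ^ 2 * an ((a.1 : ℤ), (a.2 : ℤ))⌋ % (R : ℤ) = (x.2.2.2.1 : ℤ) ∧
    kk v w = x.2.2.2.2.1 ∧ nm v = x.2.2.2.2.2

/-- all data over a set of pairs `(k, u)` -/
def DS (R : ℕ) (S : Finset (Σ _ : ℕ, ℕ)) :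
    Finset (Fin 5 × (Fin 3 × Fin 3) × Fin 2 × ℕ × (Σ _ : ℕ, ℕ)) :=
  Finset.univ ×ˢ Finset.univ ×ˢ Finset.univ ×ˢ Finset.range R ×ˢ S

theorem card_DS (R : ℕ) (S : Finset (Σ _ : ℕ, ℕ)) : (DS R S).card = 90 * R * S.card := by
  unfold DS
  rw [Finset.card_product, Finset.card_product, Finset.card_product, Finset.card_product,
    Finset.card_range]
  simp only [Finset.card_univ, Fintype.card_fin, Fintype.card_prod]
  ring

theorem mem_DS {R : ℕ} {S : Finset (Σ _ : ℕ, ℕ)}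
    {x : Fin 5 × (Fin 3 × Fin 3) × Fin 2 × ℕ × (Σ _ : ℕ, ℕ)}
    (h1 : x.2.2.2.1 < R) (h2 : x.2.2.2.2 ∈ S) : x ∈ DS R S := by
  unfold DS
  simp only [Finset.mem_product, Finset.mem_univ, true_and]
  exact ⟨Finset.mem_range.mpr h1, h2⟩

theorem mem_AQ {Q : ℕ} {a : ℕ × ℕ} (ha : a ∈ AQ Q) : TP ((a.1 : ℤ), (a.2 : ℤ)) ∧
    IsCoprime (a.1 : ℤ) (a.2 : ℤ) ∧ (Q : ℝ) ^ 2 / 64 ≤ nm ((a.1 : ℤ), (a.2 : ℤ)) ∧
    (nm ((a.1 : ℤ), (a.2 : ℤ)) : ℝ) ≤ 5 * (Q : ℝ) ^ 2 ∧ 0 ≤ an ((a.1 : ℤ), (a.2 : ℤ)) ∧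
    an ((a.1 : ℤ), (a.2 : ℤ)) < 2 * Real.log al := by
  obtain ⟨x, y⟩ := a
  unfold AQ Pr at ha
  rw [Finset.mem_filter, Finset.mem_filter, Finset.mem_product, Finset.mem_Icc, Finset.mem_Icc] at ha
  obtain ⟨⟨⟨⟨hx1, hxQ⟩, hy1, hyQ⟩, hcop⟩, h8⟩ := ha
  simp only at hx1 hxQ hy1 hyQ hcop h8 ⊢
  have r := an_range (a := ((x : ℤ), (y : ℤ))) (by simp only; omega) (by simp only; omega)
  refine ⟨TP_of_nonneg (by omega) (by omega) (by omega), Nat.isCoprime_iff_coprime.mpr hcop, ?_, ?_,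
    r.1, r.2⟩
  · unfold nm
    push_cast
    have h1 : (Q : ℝ) ≤ 8 * x := by exact_mod_cast h8.le
    have h2 : (0 : ℝ) ≤ y := by positivity
    have h3 : (0 : ℝ) ≤ x := by positivity
    have h4 : (0 : ℝ) ≤ Q := by positivity
    have h5 : (Q : ℝ) ^ 2 ≤ (8 * x) ^ 2 := pow_le_pow_left₀ h4 h1 2
    nlinarith [mul_nonneg h3 h2, sq_nonneg (y : ℝ)]
  · have := nm_le_sq (a := (x : ℤ)) (b := (y : ℤ)) (Q := Q) (by omega) (by omega)
      (by omega) (by omega)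
    exact_mod_cast this

theorem exists_J3 {p : ℕ} {ϖ : ℤ × ℤ} (hϖ : PI p ϖ) {h : ℕ → ZMod 3}
    (hh : ∀ m n : ℕ, 0 < m → 0 < n → h (m * n) = h m + h n) (hr : lam h ϖ ≠ 0) (c : ZMod 3)
    {Q M R : ℕ} (hR : 0 < R) (hQ : 80 * p ^ 2 ≤ Q) (hM : M = 1440 * p ^ 4 * Q ^ 2) {a : ℕ × ℕ}
    (ha : a ∈ AQ Q) : ∃ x ∈ DS R (T0 h c M), J3 ϖ Q R a x := by
  obtain ⟨ta, ca, n1, n2, r1, r2⟩ := mem_AQ ha
  have hQ' : (80 : ℝ) * (p : ℝ) ^ 2 ≤ Q := by exact_mod_cast hQ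
  have hM' : 100 * (p : ℝ) ^ 4 ≤ nm ((a.1 : ℤ), (a.2 : ℤ)) := by
    have h1 : (80 * (p : ℝ) ^ 2) ^ 2 ≤ (Q : ℝ) ^ 2 := pow_le_pow_left₀ (by positivity) hQ' 2
    have h2 : (80 * (p : ℝ) ^ 2) ^ 2 = 6400 * (p : ℝ) ^ 4 := by ring
    linarith
  obtain ⟨j, z, v, w, hcp, hang⟩ := loc hϖ hh hr c ta ca hM'
  obtain ⟨i1, i2, hrel⟩ := hcp.rel
  have hcp' : CP (fun v => lam h v + c) (M : ℝ) z v w := by
    apply hcp.mono
    rw [hM]
    push_cast
    have : (0 : ℝ) ≤ (p : ℝ) ^ 4 := by positivity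
    calc 288 * (p : ℝ) ^ 4 * nm ((a.1 : ℤ), (a.2 : ℤ)) ≤ 288 * (p : ℝ) ^ 4 * (5 * (Q : ℝ) ^ 2) := by
          gcongr
      _ = 1440 * (p : ℝ) ^ 4 * (Q : ℝ) ^ 2 := by ring
  obtain ⟨⟨k, u⟩, hku, e1, e2⟩ := hcp'.mem hh
  set fl : ℤ := ⌊4 * (Q : ℝ) ^ 2 * an ((a.1 : ℤ), (a.2 : ℤ))⌋ % (R : ℤ) with hfl
  have hR' : (0 : ℤ) < R := by exact_mod_cast hR
  have fl0 : 0 ≤ fl := Int.emod_nonneg _ hR'.ne'
  have fl1 : fl < R := Int.emod_lt_of_pos _ hR'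
  obtain ⟨f, hf⟩ := Int.eq_ofNat_of_zero_le fl0
  have hf6 : f < R := by omega
  refine ⟨(j, (i1, i2), (if an ((a.1 : ℤ), (a.2 : ℤ)) < Real.log al then 0 else 1), f,
    ⟨k, u⟩), mem_DS hf6 hku, z, v, w, hcp.tz, hcp.tv, hcp.tw, hcp.dvw, hang, hrel, ?_, hf, e1, e2⟩
  · simp only
    by_cases hb : an ((a.1 : ℤ), (a.2 : ℤ)) < Real.log al
    · simp [hb]
    · simp [hb]

theorem J3_inj {ϖ : ℤ × ℤ} {Q R : ℕ} (hR : R = 6000) (hQ : 80 ≤ Q)
    {a a' : ℕ × ℕ} (ha : a ∈ AQ Q) (ha' : a' ∈ AQ Q)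
    {x : Fin 5 × (Fin 3 × Fin 3) × Fin 2 × ℕ × (Σ _ : ℕ, ℕ)} (hJ : J3 ϖ Q R a x)
    (hJ' : J3 ϖ Q R a' x) : a = a' := by
  obtain ⟨ta, ca, n1, n2, r1, r2⟩ := mem_AQ ha
  obtain ⟨ta', ca', n1', n2', r1', r2'⟩ := mem_AQ ha'
  obtain ⟨z, v, w, tz, tv, tw, hd, hang, hz, hbit, hfl, hk, hu⟩ := hJ
  obtain ⟨z', v', w', tz', tv', tw', hd', hang', hz', hbit', hfl', hk', hu'⟩ := hJ'
  set A : ℤ × ℤ := ((a.1 : ℤ), (a.2 : ℤ)) with hA
  set A' : ℤ × ℤ := ((a'.1 : ℤ), (a'.2 : ℤ)) with hA'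
  have hQr : (80 : ℝ) ≤ Q := by exact_mod_cast hQ
  have hQ0 : (0 : ℝ) < (Q : ℝ) ^ 2 := by positivity
  have hQ2 : (6400 : ℝ) ≤ (Q : ℝ) ^ 2 := by nlinarith
  have b1 : 6 / (nm A : ℝ) ≤ 384 / (Q : ℝ) ^ 2 := by
    rw [div_le_div_iff₀ (by linarith) hQ0]
    linarith
  have b2 : 6 / (nm A' : ℝ) ≤ 384 / (Q : ℝ) ^ 2 := by
    rw [div_le_div_iff₀ (by linarith) hQ0]
    linarith
  have b3 : 384 / (Q : ℝ) ^ 2 ≤ 1 / 10 := by
    rw [div_le_div_iff₀ hQ0 (by norm_num)]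
    linarith
  have hlog := log_al_lower
  rw [abs_le] at hang hang'
  have hcl : |an A - an A'| ≤ Real.log al := by
    rw [abs_le]
    by_cases hb : an A < Real.log al
    · have hb' : an A' < Real.log al := hbit'.mp (hbit.mpr hb)
      constructor <;> linarith
    · have hb' : ¬ an A' < Real.log al := fun hb' => hb (hbit.mp (hbit'.mpr hb'))
      push Not at hb hb'
      constructor <;> linarith
  rw [abs_le] at hcl
  have hzz : z = z' := by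
    refine uniq3 tv tw tv' tw' tz hd hd' (by rw [hk, hk']) (by rw [hu, hu']) hz hz' ?_
    rw [abs_lt]
    constructor <;> linarith [hang.1, hang.2, hang'.1, hang'.2, hcl.1, hcl.2]
  rw [← hzz] at hang'
  set B := 4 * (Q : ℝ) ^ 2 * an A with hB
  set B' := 4 * (Q : ℝ) ^ 2 * an A' with hB'
  have hQB : 4 * (Q : ℝ) ^ 2 * (384 / (Q : ℝ) ^ 2) = 1536 := by field_simp; norm_num
  have k1 : B - B' ≤ 3072 := by
    have : an A - an A' ≤ 2 * (384 / (Q : ℝ) ^ 2) := by linarith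
    have h4 : 4 * (Q : ℝ) ^ 2 * (an A - an A') ≤ 4 * (Q : ℝ) ^ 2 * (2 * (384 / (Q : ℝ) ^ 2)) :=
      mul_le_mul_of_nonneg_left this (by positivity)
    rw [hB, hB']
    nlinarith
  have k2 : B' - B ≤ 3072 := by
    have : an A' - an A ≤ 2 * (384 / (Q : ℝ) ^ 2) := by linarith
    have h4 : 4 * (Q : ℝ) ^ 2 * (an A' - an A) ≤ 4 * (Q : ℝ) ^ 2 * (2 * (384 / (Q : ℝ) ^ 2)) :=
      mul_le_mul_of_nonneg_left this (by positivity)
    rw [hB, hB']
    nlinarith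
  have f1 := Int.floor_le B
  have f2 := Int.lt_floor_add_one B
  have f1' := Int.floor_le B'
  have f2' := Int.lt_floor_add_one B'
  have m1 : (⌊B⌋ : ℝ) - ⌊B'⌋ < 3074 := by linarith
  have m2 : (⌊B'⌋ : ℝ) - ⌊B⌋ < 3074 := by linarith
  have m1' : ⌊B⌋ - ⌊B'⌋ < 3074 := by exact_mod_cast m1
  have m2' : ⌊B'⌋ - ⌊B⌋ < 3074 := by exact_mod_cast m2
  have hfe : ⌊B⌋ = ⌊B'⌋ := by
    rw [hR] at hfl hfl'
    push_cast at hfl hfl'
    omega
  rw [hfe] at f1 f2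
  have hsmall : |an A - an A'| ≤ 1 / (4 * (Q : ℝ) ^ 2) := by
    rw [le_div_iff₀ (by positivity)]
    calc |an A - an A'| * (4 * (Q : ℝ) ^ 2) = |B - B'| := by
          have hq4 : (0 : ℝ) < 4 * (Q : ℝ) ^ 2 := by positivity
          calc |an A - an A'| * (4 * (Q : ℝ) ^ 2) = |an A - an A'| * |4 * (Q : ℝ) ^ 2| := by
                rw [abs_of_pos hq4]
            _ = |(an A - an A') * (4 * (Q : ℝ) ^ 2)| := (abs_mul _ _).symm
            _ = |B - B'| := by rw [hB, hB']; congr 1; ring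
      _ ≤ 1 := by rw [abs_le]; constructor <;> linarith
  have h5 := dt_sq_le ta ta' (η := 1 / (4 * (Q : ℝ) ^ 2))
    (by rw [div_le_one (by positivity)]; linarith) hsmall
  have h6 : 2 * (1 / (4 * (Q : ℝ) ^ 2)) ^ 2 * nm A * nm A' ≤ 50 / 16 := by
    have hA0 : (0 : ℝ) ≤ nm A := by linarith
    have hA0' : (0 : ℝ) ≤ nm A' := by linarith
    have hprod : (nm A : ℝ) * nm A' ≤ (5 * (Q : ℝ) ^ 2) * (5 * (Q : ℝ) ^ 2) :=
      mul_le_mul n2 n2' hA0' (by positivity)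
    calc 2 * (1 / (4 * (Q : ℝ) ^ 2)) ^ 2 * nm A * nm A'
        = 2 * (1 / (4 * (Q : ℝ) ^ 2)) ^ 2 * (nm A * nm A') := by ring
      _ ≤ 2 * (1 / (4 * (Q : ℝ) ^ 2)) ^ 2 * ((5 * (Q : ℝ) ^ 2) * (5 * (Q : ℝ) ^ 2)) :=
          mul_le_mul_of_nonneg_left hprod (by positivity)
      _ = 50 / 16 := by field_simp; norm_num
  have h7 : (dt A A' : ℝ) ^ 2 < 1 := by linarith
  have h8 : dt A A' = 0 := by
    have h9 : (dt A A') ^ 2 < 1 := by exact_mod_cast h7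
    by_contra hne
    have := Int.one_le_abs hne
    nlinarith [sq_abs (dt A A')]
  have h9 := eq_of_dt_zero ta ta' ca ca' h8
  rw [hA, hA', Prod.mk.injEq] at h9
  ext
  · exact_mod_cast h9.1
  · exact_mod_cast h9.2

theorem card_AQ_le {p : ℕ} {ϖ : ℤ × ℤ} (hϖ : PI p ϖ) {h : ℕ → ZMod 3}
    (hh : ∀ m n : ℕ, 0 < m → 0 < n → h (m * n) = h m + h n) (hr : lam h ϖ ≠ 0) (c : ZMod 3)
    {Q M : ℕ} (hQ : 80 * p ^ 2 ≤ Q) (hM : M = 1440 * p ^ 4 * Q ^ 2) :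
    (AQ Q).card ≤ 540000 * ((T1 h c M).card + 1) := by
  have hp1 : 1 ≤ p ^ 2 := Nat.one_le_pow _ _ hϖ.pr.pos
  obtain ⟨R, hR⟩ : ∃ R : ℕ, R = 6000 := ⟨_, rfl⟩
  have h1 : (AQ Q).card ≤ (DS R (T0 h c M)).card := by
    apply Finset.card_le_card_of_forall_subsingleton (J3 ϖ Q R)
    · intro u hu
      obtain ⟨x, hx, hJ⟩ := exists_J3 hϖ hh hr c (R := R) (by omega) hQ hM hu
      exact ⟨x, hx, hJ⟩
    · intro x _ u hu u' hu'
      exact J3_inj hR (by omega) hu.1 hu'.1 hu.2 hu'.2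
  rw [card_DS, hR, show 90 * 6000 = 540000 by norm_num] at h1
  exact h1.trans (Nat.mul_le_mul_left _ (card_T0 h c M))

theorem card_T1 (h : ℕ → ZMod 3) (c : ZMod 3) (N : ℕ) :
    ((T1 h c N).card : ℝ) = ∑ k ∈ F3 h c N, (dv (k ^ 2 + 3 * k + 1) : ℝ) := by
  unfold T1 dv
  rw [Finset.card_sigma]
  push_cast
  rfl

/-- Cauchy-Schwarz -/
theorem T1_sq_le (h : ℕ → ZMod 3) (c : ZMod 3) {N : ℕ} (hN : 1 ≤ N) :
    ((T1 h c N).card : ℝ) ^ 2 ≤ (F3 h c N).card * (800 * N * (1 + Real.log N) ^ 32) := by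
  rw [card_T1]
  refine sq_sum_le_card_mul_sum_sq.trans ?_
  apply mul_le_mul_of_nonneg_left _ (by positivity)
  refine le_trans ?_ (moment hN)
  apply Finset.sum_le_sum_of_subset_of_nonneg
  · unfold F3; exact Finset.filter_subset _ _
  · intro i _ _; positivity

/-- **The main case.** -/
theorem main_case {p : ℕ} {ϖ : ℤ × ℤ} (hϖ : PI p ϖ) {h : ℕ → ZMod 3}
    (hh : ∀ m n : ℕ, 0 < m → 0 < n → h (m * n) = h m + h n) (hr : lam h ϖ ≠ 0) (c : ZMod 3) :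
    ∃ N₀ : ℕ, ∀ N ≥ N₀, (N : ℝ) / Real.log N ^ 33 ≤ (F3 h c N).card := by
  have hp1 : 1 ≤ p := hϖ.pr.pos
  have hp1r : (1 : ℝ) ≤ p := by exact_mod_cast hp1
  have hp4 : (1 : ℝ) ≤ (p : ℝ) ^ 4 := one_le_pow₀ hp1r
  set B : ℝ := 5760 * 4320000 * (p : ℝ) ^ 4 with hB
  have hB1 : 1 ≤ B := by rw [hB]; linarith
  have ht : Filter.Tendsto (fun N : ℕ => Real.log (N : ℝ)) Filter.atTop Filter.atTop :=
    Real.tendsto_log_atTop.comp tendsto_natCast_atTop_atTop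
  have ht2 : Filter.Tendsto (fun N : ℕ => (N : ℝ)) Filter.atTop Filter.atTop :=
    tendsto_natCast_atTop_atTop
  obtain ⟨N₀, hN₀⟩ := Filter.eventually_atTop.mp
    ((ht.eventually_ge_atTop (3200 * B ^ 2 * 2 ^ 32)).and ((ht2.eventually_ge_atTop (2 * B)).and
      (Filter.eventually_ge_atTop (1440 * p ^ 4 * (80 * p ^ 2) ^ 2))))
  refine ⟨N₀, fun N hN => ?_⟩
  obtain ⟨e1, e2, e3⟩ := hN₀ N hN
  set L := Real.log (N : ℝ) with hL
  set D : ℕ := 1440 * p ^ 4 with hD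
  have hp4n : 1 ≤ p ^ 4 := Nat.one_le_pow _ _ hp1
  have hD0 : 0 < D := by positivity
  set Q : ℕ := Nat.sqrt (N / D) with hQ
  have hp2 : 1 ≤ p ^ 2 := Nat.one_le_pow _ _ hp1
  have hQ80 : 80 * p ^ 2 ≤ Q := by
    rw [hQ, Nat.le_sqrt', Nat.le_div_iff_mul_le hD0, mul_comm]
    exact e3
  have hM : D * Q ^ 2 ≤ N := by
    have h1 : Q ^ 2 ≤ N / D := Nat.sqrt_le' _
    calc D * Q ^ 2 ≤ D * (N / D) := Nat.mul_le_mul_left _ h1
      _ ≤ N := Nat.mul_div_le _ _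
  have hN2 : N < D * (Q + 1) ^ 2 := by
    have h1 : N / D < (Q + 1) ^ 2 := Nat.lt_succ_sqrt' _
    rw [Nat.div_lt_iff_lt_mul hD0] at h1
    rw [mul_comm]; exact h1
  have h1 := card_AQ (Q := Q) (by omega)
  obtain ⟨M, hMe⟩ : ∃ M : ℕ, M = 1440 * p ^ 4 * Q ^ 2 := ⟨_, rfl⟩
  have hMN : M ≤ N := by rw [hMe]; exact hM
  have h2 := card_AQ_le hϖ hh hr c hQ80 hMe
  have h3 : ((AQ Q).card : ℝ) ≤ 540000 * ((T1 h c M).card + 1) := by exact_mod_cast h2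
  have h4 : ((T1 h c M).card : ℝ) ≤ (T1 h c N).card := by exact_mod_cast T1_mono h c hMN
  set T : ℝ := ((T1 h c N).card : ℝ) with hT
  have hT0 : 0 ≤ T := by positivity
  have h5 : (Q : ℝ) ^ 2 ≤ 4320000 * (T + 1) := by linarith
  have h6 : (N : ℝ) ≤ B * (T + 1) := by
    have h7 : (N : ℝ) ≤ D * ((Q : ℝ) + 1) ^ 2 := by exact_mod_cast hN2.le
    have h8 : ((Q : ℝ) + 1) ^ 2 ≤ 4 * (Q : ℝ) ^ 2 := by
      have : (1 : ℝ) ≤ Q := by exact_mod_cast (by omega : 1 ≤ Q)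
      nlinarith
    have h9 : (D : ℝ) = 1440 * (p : ℝ) ^ 4 := by rw [hD]; push_cast; ring
    calc (N : ℝ) ≤ D * ((Q : ℝ) + 1) ^ 2 := h7
      _ ≤ D * (4 * (4320000 * (T + 1))) := by
          apply mul_le_mul_of_nonneg_left _ (by positivity)
          linarith
      _ = B * (T + 1) := by rw [h9, hB]; ring
  have h7 : (N : ℝ) ≤ 2 * B * T := by linarith
  have hNpos : 1 ≤ N := by
    have : (1 : ℝ) ≤ N := by linarith
    exact_mod_cast this
  have hN0 : (0 : ℝ) < N := by exact_mod_cast hNpos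
  have h8 := T1_sq_le h c hNpos
  set S : ℝ := ((F3 h c N).card : ℝ) with hS
  have hS0 : 0 ≤ S := by positivity
  have hB2 : 1 ≤ B ^ 2 := one_le_pow₀ hB1
  have hL1 : 1 ≤ L := by nlinarith
  have h9 : (1 + L) ^ 32 ≤ 2 ^ 32 * L ^ 32 := by
    rw [← mul_pow]; exact pow_le_pow_left₀ (by linarith) (by linarith) 32
  have h10 : (N : ℝ) * N ≤ N * (S * (3200 * B ^ 2 * 2 ^ 32) * L ^ 32) := by
    calc (N : ℝ) * N = (N : ℝ) ^ 2 := by ring
      _ ≤ (2 * B * T) ^ 2 := pow_le_pow_left₀ hN0.le h7 2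
      _ = 4 * B ^ 2 * T ^ 2 := by ring
      _ ≤ 4 * B ^ 2 * (S * (800 * N * (1 + L) ^ 32)) := by gcongr
      _ ≤ 4 * B ^ 2 * (S * (800 * N * (2 ^ 32 * L ^ 32))) := by gcongr
      _ = N * (S * (3200 * B ^ 2 * 2 ^ 32) * L ^ 32) := by ring
  have h11 : (N : ℝ) ≤ S * (3200 * B ^ 2 * 2 ^ 32) * L ^ 32 := le_of_mul_le_mul_left h10 hN0
  rw [div_le_iff₀ (by positivity)]
  calc (N : ℝ) ≤ S * (3200 * B ^ 2 * 2 ^ 32) * L ^ 32 := h11
    _ ≤ S * L * L ^ 32 := by gcongr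
    _ = S * L ^ 33 := by ring

end Pool.Agent.Lib.MP_d57abb_nt.Three
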