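import Pool.Agent.Lib.MP_d57abb_nt.Three.Fan

/-!
# Multiplication by an element of prime norm
-/


namespace Pool.Agent.Lib.MP_d57abb_nt.Three

open Pool.Agent.Lib.MP_d57abb_nt

/-- `ϖ` is a totally positive element whose norm is the prime `p`, and `p` does not divide
its trace -/
structure PI (p : ℕ) (ϖ : ℤ × ℤ) : Prop where
  pr : p.Prime
  tp : TP ϖ
  nm : nm ϖ = p
  tr : ¬ (p : ℤ) ∣ 2 * ϖ.1 + 3 * ϖ.2

/-- `v` is bad if `p ∣ v ϖ` -/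
def Bad (p : ℕ) (ϖ v : ℤ × ℤ) : Prop := (p : ℤ) ∣ (ml v ϖ).1 ∧ (p : ℤ) ∣ (ml v ϖ).2

theorem not_both {p : ℕ} {ϖ : ℤ × ℤ} (h : PI p ϖ) {v w : ℤ × ℤ} (hd : dt v w = 1)
    (hv : Bad p ϖ v) (hw : Bad p ϖ w) : False := by
  obtain ⟨v1, v2⟩ := hv
  obtain ⟨w1, w2⟩ := hw
  have e1 : ϖ.1 = w.2 * (ml v ϖ).1 - v.2 * (ml w ϖ).1 := by
    unfold dt at hd; unfold ml
    linear_combination (-ϖ.1) * hd
  have e2 : ϖ.2 = w.2 * (ml v ϖ).2 - v.2 * (ml w ϖ).2 := by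
    unfold dt at hd; unfold ml
    linear_combination (-ϖ.2) * hd
  have d1 : (p : ℤ) ∣ ϖ.1 := by
    rw [e1]; exact dvd_sub (Dvd.dvd.mul_left v1 _) (Dvd.dvd.mul_left w1 _)
  have d2 : (p : ℤ) ∣ ϖ.2 := by
    rw [e2]; exact dvd_sub (Dvd.dvd.mul_left v2 _) (Dvd.dvd.mul_left w2 _)
  exact h.tr (dvd_add (Dvd.dvd.mul_left d1 _) (Dvd.dvd.mul_left d2 _))

theorem isCoprime_of_prime {x y : ℤ} (h : ∀ l : ℕ, l.Prime → (l : ℤ) ∣ x → (l : ℤ) ∣ y → False) :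
    IsCoprime x y := by
  rw [Int.isCoprime_iff_gcd_eq_one]
  by_contra hne
  obtain ⟨l, hl, hd⟩ := Nat.exists_prime_and_dvd hne
  have h1 : (l : ℤ) ∣ (Int.gcd x y : ℤ) := by exact_mod_cast hd
  exact h l hl (h1.trans (Int.gcd_dvd_left ..)) (h1.trans (Int.gcd_dvd_right ..))

theorem not_prime_dvd {x y : ℤ} (h : IsCoprime x y) {l : ℕ} (hl : l.Prime) (h1 : (l : ℤ) ∣ x)
    (h2 : (l : ℤ) ∣ y) : False := by
  obtain ⟨a, b, hab⟩ := h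
  have h3 : (l : ℤ) ∣ 1 := by
    rw [← hab]; exact dvd_add (Dvd.dvd.mul_left h1 _) (Dvd.dvd.mul_left h2 _)
  have h4 : l ∣ 1 := by exact_mod_cast h3
  exact hl.one_lt.ne' (Nat.dvd_one.mp h4)

theorem not_bad_ml {p : ℕ} {ϖ : ℤ × ℤ} (h : PI p ϖ) {v : ℤ × ℤ} (hb : ¬ Bad p ϖ v) :
    ¬ Bad p ϖ (ml v ϖ) := by
  rintro ⟨h1, h2⟩
  have hp : Prime (p : ℤ) := Nat.prime_iff_prime_int.mp h.pr
  have hn := h.nm
  unfold Pool.Agent.Lib.MP_d57abb_nt.nm at hn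
  -- ϖ² = t ϖ - p
  have e1 : (ml (ml v ϖ) ϖ).1 = (2 * ϖ.1 + 3 * ϖ.2) * (ml v ϖ).1 - p * v.1 := by
    rw [← hn]; unfold ml; ring
  have e2 : (ml (ml v ϖ) ϖ).2 = (2 * ϖ.1 + 3 * ϖ.2) * (ml v ϖ).2 - p * v.2 := by
    rw [← hn]; unfold ml; ring
  rw [e1] at h1
  rw [e2] at h2
  have k1 : (p : ℤ) ∣ (2 * ϖ.1 + 3 * ϖ.2) * (ml v ϖ).1 := by
    have := dvd_add h1 (Dvd.intro v.1 rfl : (p : ℤ) ∣ p * v.1)
    simpa using this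
  have k2 : (p : ℤ) ∣ (2 * ϖ.1 + 3 * ϖ.2) * (ml v ϖ).2 := by
    have := dvd_add h2 (Dvd.intro v.2 rfl : (p : ℤ) ∣ p * v.2)
    simpa using this
  exact hb ⟨(hp.dvd_or_dvd k1).resolve_left h.tr, (hp.dvd_or_dvd k2).resolve_left h.tr⟩

theorem prim_ml {p : ℕ} {ϖ : ℤ × ℤ} (h : PI p ϖ) {v : ℤ × ℤ} (hv : IsCoprime v.1 v.2)
    (hb : ¬ Bad p ϖ v) : IsCoprime (ml v ϖ).1 (ml v ϖ).2 := by
  apply isCoprime_of_prime
  intro l hl h1 h2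
  have hlp : Prime (l : ℤ) := Nat.prime_iff_prime_int.mp hl
  have hn := h.nm
  unfold Pool.Agent.Lib.MP_d57abb_nt.nm at hn
  rcases eq_or_ne l p with rfl | hne
  · exact hb ⟨h1, h2⟩
  · -- multiply by the conjugate `(ϖ.1 + 3 ϖ.2, - ϖ.2)`
    have e1 : (p : ℤ) * v.1 = (ϖ.1 + 3 * ϖ.2) * (ml v ϖ).1 + ϖ.2 * (ml v ϖ).2 := by
      rw [← hn]; unfold ml; ring
    have e2 : (p : ℤ) * v.2 = ϖ.1 * (ml v ϖ).2 - ϖ.2 * (ml v ϖ).1 := by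
      rw [← hn]; unfold ml; ring
    have k1 : (l : ℤ) ∣ p * v.1 := by
      rw [e1]; exact dvd_add (Dvd.dvd.mul_left h1 _) (Dvd.dvd.mul_left h2 _)
    have k2 : (l : ℤ) ∣ p * v.2 := by
      rw [e2]; exact dvd_sub (Dvd.dvd.mul_left h2 _) (Dvd.dvd.mul_left h1 _)
    have hlp' : ¬ (l : ℤ) ∣ p := by
      intro hd
      have : l ∣ p := by exact_mod_cast hd
      exact hne ((Nat.prime_dvd_prime_iff_eq hl h.pr).mp this)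
    exact not_prime_dvd hv hl ((hlp.dvd_or_dvd k1).resolve_left hlp')
      ((hlp.dvd_or_dvd k2).resolve_left hlp')

/-- `v ϖ ^ n` -/
def pw (ϖ : ℤ × ℤ) : ℕ → ℤ × ℤ → ℤ × ℤ
  | 0, v => v
  | n + 1, v => ml (pw ϖ n v) ϖ

theorem pw_prim {p : ℕ} {ϖ : ℤ × ℤ} (h : PI p ϖ) {v : ℤ × ℤ} (hv : IsCoprime v.1 v.2)
    (hb : ¬ Bad p ϖ v) (n : ℕ) : IsCoprime (pw ϖ n v).1 (pw ϖ n v).2 ∧ ¬ Bad p ϖ (pw ϖ n v) := by
  induction n with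
  | zero => exact ⟨hv, hb⟩
  | succ n ih => exact ⟨prim_ml h ih.1 ih.2, not_bad_ml h ih.2⟩

theorem pw_TP {p : ℕ} {ϖ : ℤ × ℤ} (h : PI p ϖ) {v : ℤ × ℤ} (hv : TP v) (n : ℕ) :
    TP (pw ϖ n v) := by
  induction n with
  | zero => exact hv
  | succ n ih => exact ih.ml h.tp

theorem pw_an {p : ℕ} {ϖ : ℤ × ℤ} (h : PI p ϖ) {v : ℤ × ℤ} (hv : TP v) (n : ℕ) :
    an (pw ϖ n v) = an v + n * an ϖ := by
  induction n with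
  | zero => simp [pw]
  | succ n ih =>
    rw [pw, an_ml (pw_TP h hv n) h.tp, ih]
    push_cast; ring

theorem pw_nm {p : ℕ} {ϖ : ℤ × ℤ} (h : PI p ϖ) (v : ℤ × ℤ) (n : ℕ) :
    nm (pw ϖ n v) = nm v * p ^ n := by
  induction n with
  | zero => simp [pw]
  | succ n ih =>
    rw [pw, nm_ml, ih, h.nm, pow_succ]; ring

/-- the label -/
def lam (h : ℕ → ZMod 3) (v : ℤ × ℤ) : ZMod 3 := h (nm v).natAbs

theorem lam_ml {h : ℕ → ZMod 3} (hh : ∀ m n : ℕ, 0 < m → 0 < n → h (m * n) = h m + h n)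
    {v w : ℤ × ℤ} (hv : TP v) (hw : TP w) : lam h (ml v w) = lam h v + lam h w := by
  unfold lam
  rw [nm_ml, Int.natAbs_mul, hh _ _ (Int.natAbs_pos.mpr hv.nm_pos.ne')
    (Int.natAbs_pos.mpr hw.nm_pos.ne')]

theorem pw_lam {h : ℕ → ZMod 3} (hh : ∀ m n : ℕ, 0 < m → 0 < n → h (m * n) = h m + h n)
    {p : ℕ} {ϖ : ℤ × ℤ} (hϖ : PI p ϖ) {v : ℤ × ℤ} (hv : TP v) (n : ℕ) :
    lam h (pw ϖ n v) = lam h v + n * lam h ϖ := by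
  induction n with
  | zero => simp [pw]
  | succ n ih =>
    rw [pw, lam_ml hh (pw_TP hϖ hv n) hϖ.tp, ih]
    push_cast; ring

end Pool.Agent.Lib.MP_d57abb_nt.Three
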