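import Pool.Agent.Lib.MP_d57abb_nt.Three.Sep

/-!
# Discrete continuity with three values

Between two primitive totally positive vectors with labels `s ≠ 0` and `-s` there is a vector `z`
tied to an adjacent pair with opposite labels.
-/

open Real

namespace Pool.Agent.Lib.MP_d57abb_nt.Three

open Pool.Agent.Lib.MP_d57abb_nt

/-- an adjacent pair with opposite labels, tied to `z` -/
structure CP (d : ℤ × ℤ → ZMod 3) (X : ℝ) (z v w : ℤ × ℤ) : Prop where
  tz : TP z
  tv : TP v
  tw : TP w
  dvw : dt v w = 1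
  sum : d v + d w = 0
  rel : ∃ x y : Fin 3, z = ((x : ℤ) - 1) • v + ((y : ℤ) - 1) • w
  nv : (nm v : ℝ) ≤ X
  nw : (nm w : ℝ) ≤ X

theorem three_cases {s t : ZMod 3} (hs : s ≠ 0) : t = 0 ∨ t = s ∨ t + s = 0 := by
  revert s t; decide

theorem add_self_ne {s : ZMod 3} (hs : s ≠ 0) : s + s ≠ 0 := by
  revert s; decide

theorem rel_left (v w : ℤ × ℤ) : ∃ x y : Fin 3, v = ((x : ℤ) - 1) • v + ((y : ℤ) - 1) • w :=
  ⟨2, 1, by simp⟩
theorem rel_right (v w : ℤ × ℤ) : ∃ x y : Fin 3, w = ((x : ℤ) - 1) • v + ((y : ℤ) - 1) • w :=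
  ⟨1, 2, by simp⟩
theorem rel_add {z v w : ℤ × ℤ} (h : z = v + w) :
    ∃ x y : Fin 3, z = ((x : ℤ) - 1) • v + ((y : ℤ) - 1) • w :=
  ⟨2, 2, by rw [h]; simp⟩
theorem rel_sub {z v w : ℤ × ℤ} (h : z = v - w) :
    ∃ x y : Fin 3, z = ((x : ℤ) - 1) • v + ((y : ℤ) - 1) • w :=
  ⟨2, 0, by rw [h]; simp [sub_eq_add_neg]⟩
theorem rel_sub' {z v w : ℤ × ℤ} (h : z = w - v) :
    ∃ x y : Fin 3, z = ((x : ℤ) - 1) • v + ((y : ℤ) - 1) • w :=
  ⟨0, 2, by rw [h]; simp [sub_eq_add_neg, add_comm]⟩

theorem pp_sub (v w : ℤ × ℤ) : pp (v - w) = pp v - pp w := by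
  unfold pp; simp only [Prod.fst_sub, Prod.snd_sub]; push_cast; ring
theorem qq_sub (v w : ℤ × ℤ) : qq (v - w) = qq v - qq w := by
  unfold qq; simp only [Prod.fst_sub, Prod.snd_sub]; push_cast; ring
theorem dt_sub_right (v w w' : ℤ × ℤ) : dt v (w - w') = dt v w - dt v w' := by
  unfold dt; simp only [Prod.fst_sub, Prod.snd_sub]; ring
theorem dt_sub_left (v v' w : ℤ × ℤ) : dt (v - v') w = dt v w - dt v' w := by
  unfold dt; simp only [Prod.fst_sub, Prod.snd_sub]; ring

theorem nm_le_of_le {v w : ℤ × ℤ} (hv : TP v) (hp : pp v ≤ pp w) (hq : qq v ≤ qq w) :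
    (nm v : ℝ) ≤ nm w := by
  rw [← pp_mul_qq, ← pp_mul_qq]
  exact mul_le_mul hp hq hv.2.le (hv.1.le.trans hp)

/-- an adjacent pair with indefinite partner has a unit -/
theorem nm_eq_one {v z : ℤ × ℤ} (tz : TP z) (h : dt v z = 1) (hv : nm v < 0) : nm z = 1 := by
  have h1 := kk_eq h
  have hz := tz.nm_pos
  have h2 : nm v * nm z < 0 := mul_neg_of_neg_of_pos hv hz
  set k := kk v z with hk
  have h3 : k ^ 2 + 3 * k + 1 < 0 := by rw [h1]; exact h2
  have h4 : -3 < k := by
    by_contra hcon
    push Not at hcon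
    nlinarith
  have h5 : k < 0 := by
    by_contra hcon
    push Not at hcon
    nlinarith
  have h6 : nm v * nm z = -1 := by
    rw [← h1]
    have : k = -1 ∨ k = -2 := by omega
    rcases this with h | h <;> rw [h] <;> norm_num
  have h7 : nm z ∣ 1 := ⟨-nm v, by linarith⟩
  have := Int.le_of_dvd one_pos h7
  omega

/-- **The fan.** -/
theorem fan (d : ℤ × ℤ → ZMod 3) {X : ℝ} {z : ℤ × ℤ} (tz : TP z) (hz : 2 ≤ nm z)
    (hzX : (nm z : ℝ) ≤ X) (hd : d z = 0) : ∀ m : ℕ, ∀ v w : ℤ × ℤ, TP v → TP w →
      dt v z = 1 → dt z w = 1 → dt v w = m → d v ≠ 0 → d v + d w = 0 → (nm v : ℝ) ≤ X →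
      (nm w : ℝ) ≤ X → ∃ v' w', CP d X z v' w' := by
  intro m
  induction m with
  | zero =>
    intro v w tv tw h1 h2 h3 _ _ _ _
    exfalso
    have h4 := cramer v w z
    rw [h3, h2, h1, Nat.cast_zero, zero_smul, one_smul, one_smul] at h4
    have h5 : pp (v + w) = 0 := by rw [← h4]; simp [pp]
    rw [pp_add] at h5
    linarith [tv.1, tw.1]
  | succ m ih =>
    intro v w tv tw h1 h2 h3 hs hsum hvX hwX
    have h4 := cramer v w z
    rw [h3, h2, h1, one_smul, one_smul] at h4
    have hpp : ((m : ℝ) + 1) * pp z = pp v + pp w := by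
      have := congrArg pp h4
      rw [pp_smul, pp_add] at this
      push_cast at this
      exact this
    have hqq : ((m : ℝ) + 1) * qq z = qq v + qq w := by
      have := congrArg qq h4
      rw [qq_smul, qq_add] at this
      push_cast at this
      exact this
    have hzz := dt_self z
    rcases Nat.eq_zero_or_pos m with hm | hm
    · rw [hm] at h4 h3
      refine ⟨v, w, tz, tv, tw, by simpa using h3, hsum, rel_add ?_, hvX, hwX⟩
      simpa using h4
    · have hm1 : (1 : ℝ) ≤ m := by exact_mod_cast hm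
      have hzp := tz.1
      have hzq := tz.2
      by_cases tv1 : TP (v - z)
      · -- go down at v
        have nv1 : (nm (v - z) : ℝ) ≤ X := by
          refine (nm_le_of_le (w := v) tv1 ?_ ?_).trans hvX
          · rw [pp_sub]; linarith
          · rw [qq_sub]; linarith
        have d1 : dt (v - z) z = 1 := by rw [dt_sub_left, h1, hzz]; ring
        have d2 : dt (v - z) v = 1 := by
          rw [dt_sub_left, dt_self, dt_comm z v, h1]; ring
        rcases three_cases (t := d (v - z)) hs with h | h | h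
        · exact ⟨v - z, z, tz, tv1, tz, d1, by rw [h, hd, add_zero], rel_right _ _, nv1, hzX⟩
        · refine ih (v - z) w tv1 tw d1 h2 ?_ (by rw [h]; exact hs) (by rw [h]; exact hsum) nv1 hwX
          rw [dt_sub_left, h3, h2]; push_cast; ring
        · exact ⟨v - z, v, tz, tv1, tv, d2, h, rel_sub' (by abel), nv1, hvX⟩
      · by_cases tw1 : TP (w - z)
        · have nw1 : (nm (w - z) : ℝ) ≤ X := by
            refine (nm_le_of_le (w := w) tw1 ?_ ?_).trans hwX
            · rw [pp_sub]; linarith
            · rw [qq_sub]; linarith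
          have d1 : dt z (w - z) = 1 := by rw [dt_sub_right, h2, hzz]; ring
          have d2 : dt w (w - z) = 1 := by
            rw [dt_sub_right, dt_self, dt_comm w z, h2]; ring
          have hw0 : d w ≠ 0 := by
            intro h0; rw [h0, add_zero] at hsum; exact hs hsum
          rcases three_cases (t := d (w - z)) hw0 with h | h | h
          · exact ⟨z, w - z, tz, tz, tw1, d1, by rw [h, hd, add_zero], rel_left _ _, hzX, nw1⟩
          · refine ih v (w - z) tv tw1 h1 d1 ?_ hs (by rw [h]; exact hsum) hvX nw1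
            rw [dt_sub_right, h3, h1]; push_cast; ring
          · exact ⟨w, w - z, tz, tw, tw1, d2, by rw [add_comm]; exact h, rel_sub (by abel), hwX, nw1⟩
        · exfalso
          have e1 := dt_eq v z
          have e2 := dt_eq z w
          rw [h1] at e1
          rw [h2] at e2
          push_cast at e1 e2
          have s5 := sqrt5_lo
          have hv1 : pp v ≤ pp z := by
            by_contra hcon
            push Not at hcon
            apply tv1
            refine ⟨by rw [pp_sub]; linarith, ?_⟩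
            rw [qq_sub]
            have : qq z * pp z < qq v * pp z := by nlinarith
            have := lt_of_mul_lt_mul_right this hzp.le
            linarith
          have hw1 : qq w ≤ qq z := by
            by_contra hcon
            push Not at hcon
            apply tw1
            refine ⟨?_, by rw [qq_sub]; linarith⟩
            rw [pp_sub]
            have : pp z * qq z < pp w * qq z := by nlinarith
            have := lt_of_mul_lt_mul_right this hzq.le
            linarith
          have hq1 : qq z ≤ qq v := by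
            have : 2 * qq z ≤ ((m : ℝ) + 1) * qq z := by nlinarith
            linarith
          have hneg : nm (v - z) ≤ 0 := by
            have : (nm (v - z) : ℝ) ≤ 0 := by
              rw [← pp_mul_qq, pp_sub, qq_sub]
              exact mul_nonpos_of_nonpos_of_nonneg (by linarith) (by linarith)
            exact_mod_cast this
          have d1 : dt (v - z) z = 1 := by rw [dt_sub_left, h1, hzz]; ring
          have hne : nm (v - z) ≠ 0 := by
            intro h0
            have := kk_eq d1
            rw [h0, zero_mul] at this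
            set k := kk (v - z) z
            have h5 : (2 * k + 3) ^ 2 = 5 := by linear_combination 4 * this
            have h6 : 2 * k + 3 < 3 := by nlinarith
            have h7 : -3 < 2 * k + 3 := by nlinarith
            have h8 : k = -1 ∨ k = -2 := by omega
            rcases h8 with h | h <;> rw [h] at h5 <;> norm_num at h5
          have := nm_eq_one tz d1 (lt_of_le_of_ne hneg hne)
          omega

/-- **Between labels `s` and `-s`.** -/
theorem seg_aux (d : ℤ × ℤ → ZMod 3) {X : ℝ} : ∀ D : ℕ, ∀ a b : ℤ × ℤ, IsCoprime a.1 a.2 →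
    IsCoprime b.1 b.2 → TP a → TP b → dt a b = D → 0 < D → d a ≠ 0 → d a + d b = 0 →
    (∀ u, TP u → Hull a b u → 2 ≤ nm u ∧ (nm u : ℝ) ≤ X) →
    ∃ z v w, Hull a b z ∧ CP d X z v w := by
  -- one Farey step
  have step : ∀ a b : ℤ × ℤ, IsCoprime a.1 a.2 → IsCoprime b.1 b.2 → TP a → TP b →
      ∀ D : ℕ, dt a b = D → 2 ≤ D → ∃ c, TP c ∧ Hull a b c ∧ dt a c = 1 ∧
        ∃ e : ℕ, dt c b = e ∧ 1 ≤ e ∧ e < D := by
    intro a b ca cb ha hb D hD hD2
    obtain ⟨p, q, hpq⟩ := ca
    set c0 : ℤ × ℤ := (-q, p) with hc0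
    have h0 : dt a c0 = 1 := by
      simp only [dt, hc0]; linarith
    have hD0 : (D : ℤ) ≠ 0 := by omega
    have hDp : (0 : ℤ) < D := by omega
    set j : ℤ := -(dt c0 b / D) with hj
    set c : ℤ × ℤ := c0 + j • a with hc
    have haa : dt a a = 0 := by simp only [dt]; ring
    have h1 : dt a c = 1 := by
      rw [hc, dt_add_right, dt_smul_right, haa, h0]; ring
    have h2 : dt c b = dt c0 b % D := by
      rw [hc, dt_add_left, dt_smul_left, hD, hj, Int.emod_def]; ring
    have he0 : 0 ≤ dt c b := by rw [h2]; exact Int.emod_nonneg _ hD0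
    have heD : dt c b < D := by rw [h2]; exact Int.emod_lt_of_pos _ hDp
    have h3 := cramer a b c
    rw [hD, h1, one_smul] at h3
    clear_value c
    have hDr : (0 : ℝ) < D := by exact_mod_cast hDp
    have her : (0 : ℝ) ≤ (dt c b : ℝ) := by exact_mod_cast he0
    have her' : (dt c b : ℝ) + 1 ≤ D := by exact_mod_cast heD
    have h4 : (D : ℝ) * pp c = dt c b * pp a + pp b := by
      have := congrArg pp h3
      rw [pp_smul, pp_add, pp_smul] at this
      exact_mod_cast this
    have h5 : (D : ℝ) * qq c = dt c b * qq a + qq b := by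
      have := congrArg qq h3
      rw [qq_smul, qq_add, qq_smul] at this
      exact_mod_cast this
    have hTc : TP c := by
      constructor
      · have : 0 < (D : ℝ) * pp c := by
          rw [h4]; have := mul_nonneg her ha.1.le; linarith [hb.1]
        exact (mul_pos_iff_of_pos_left hDr).mp this
      · have : 0 < (D : ℝ) * qq c := by
          rw [h5]; have := mul_nonneg her ha.2.le; linarith [hb.2]
        exact (mul_pos_iff_of_pos_left hDr).mp this
    have hHc : Hull a b c := by
      refine ⟨dt c b / D, 1 / D, by positivity, by positivity, ?_, ?_, ?_⟩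
      · rw [← add_div, div_le_one hDr]; exact her'
      · field_simp; linarith
      · field_simp; linarith
    refine ⟨c, hTc, hHc, h1, (dt c b).toNat, (Int.toNat_of_nonneg he0).symm, ?_, by omega⟩
    by_contra hcon
    have he : dt c b = 0 := by omega
    rw [he, zero_smul, zero_add] at h3
    obtain ⟨x, y, hxy⟩ := cb
    rw [← h3] at hxy
    simp only [Prod.smul_fst, Prod.smul_snd, smul_eq_mul] at hxy
    have : (D : ℤ) ∣ 1 := ⟨x * c.1 + y * c.2, by linarith⟩
    have := Int.le_of_dvd one_pos this
    omega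
  intro D
  induction D using Nat.strong_induction_on with
  | _ D ih =>
  intro a b ca cb ha hb hD hDpos hne hsum hX
  have hXa := hX a ha (Hull.left a b)
  have hXb := hX b hb (Hull.right a b)
  rcases Nat.lt_or_ge D 2 with hD2 | hD2
  · have hD1 : D = 1 := by omega
    refine ⟨a, a, b, Hull.left a b, ha, ha, hb, ?_, hsum, rel_left _ _, hXa.2, hXb.2⟩
    rw [hD, hD1]; norm_num
  obtain ⟨c, tc, Hc, h1, e, he, he1, heD⟩ := step a b ca cb ha hb D hD hD2
  have hXc := hX c tc Hc
  have cc := coprime_right h1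
  rcases three_cases (t := d c) hne with h | h | h
  · -- label zero
    rcases Nat.lt_or_ge e 2 with he2 | he2
    · have : e = 1 := by omega
      obtain ⟨v, w, hcp⟩ := fan d tc hXc.1 hXc.2 h D a b ha hb h1 (by rw [he, this]; norm_num) hD
        hne hsum hXa.2 hXb.2
      exact ⟨c, v, w, Hc, hcp⟩
    · obtain ⟨c', tc', Hc', h1', e', he', he1', heD'⟩ := step c b cc cb tc hb e he he2
      have Hc'2 : Hull a b c' := Hc.trans (Hull.right a b) Hc'
      have hXc' := hX c' tc' Hc'2
      have hsum' : ∀ s, s ≠ 0 → d a = s → d c' = 0 ∨ d c' = s ∨ d c' + s = 0 := by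
        intro s hs _
        exact three_cases hs
      rcases three_cases (t := d c') hne with h' | h' | h'
      · exact ⟨c, c, c', Hc, tc, tc, tc', h1', by rw [h, h', add_zero], rel_left _ _, hXc.2, hXc'.2⟩
      · obtain ⟨z, v, w, k1, k2⟩ := ih e' (by omega) c' b (coprime_right h1') cb tc' hb he' (by omega)
          (by rw [h']; exact hne) (by rw [h']; exact hsum)
          (fun u tu Hu => hX u tu (Hc'2.trans (Hull.right a b) Hu))
        exact ⟨z, v, w, Hc'2.trans (Hull.right a b) k1, k2⟩
      · have hac' : ∃ m : ℕ, dt a c' = m := by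
          have k3 := cramer a c' c
          rw [h1, h1', one_smul, one_smul] at k3
          have k4 : (dt a c' : ℝ) * pp c = pp a + pp c' := by
            have := congrArg pp k3
            rw [pp_smul, pp_add] at this
            exact this
          have k5 : (0 : ℝ) < dt a c' := by
            have : 0 < (dt a c' : ℝ) * pp c := by rw [k4]; linarith [ha.1, tc'.1]
            exact (mul_pos_iff_of_pos_right tc.1).mp this
          have k6 : 0 < dt a c' := by exact_mod_cast k5
          exact ⟨(dt a c').toNat, (Int.toNat_of_nonneg k6.le).symm⟩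
        obtain ⟨m, hm⟩ := hac'
        obtain ⟨v, w, hcp⟩ := fan d tc hXc.1 hXc.2 h m a c' ha tc' h1 h1' hm
          hne (by rw [add_comm]; exact h') hXa.2 hXc'.2
        exact ⟨c, v, w, Hc, hcp⟩
  · obtain ⟨z, v, w, k1, k2⟩ := ih e (by omega) c b cc cb tc hb he (by omega)
      (by rw [h]; exact hne) (by rw [h]; exact hsum)
      (fun u tu Hu => hX u tu (Hc.trans (Hull.right a b) Hu))
    exact ⟨z, v, w, Hc.trans (Hull.right a b) k1, k2⟩
  · exact ⟨a, a, c, Hull.left a b, ha, ha, tc, h1, by rw [add_comm]; exact h, rel_left _ _,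
      hXa.2, hXc.2⟩

theorem seg (d : ℤ × ℤ → ZMod 3) {X : ℝ} {a b : ℤ × ℤ} (ca : IsCoprime a.1 a.2)
    (cb : IsCoprime b.1 b.2) (ha : TP a) (hb : TP b) (h0 : d a ≠ 0) (h1 : d a + d b = 0)
    (hX : ∀ u, TP u → Hull a b u → 2 ≤ nm u ∧ (nm u : ℝ) ≤ X) :
    ∃ z v w, Hull a b z ∧ CP d X z v w := by
  rcases lt_trichotomy (dt a b) 0 with h | h | h
  · have h2 : 0 < dt b a := by rw [dt_comm]; omega
    have hb0 : d b ≠ 0 := by
      intro h3; rw [h3, add_zero] at h1; exact h0 h1
    obtain ⟨z, v, w, k1, k2⟩ := seg_aux d (dt b a).toNat b a cb ca hb ha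
      (Int.toNat_of_nonneg h2.le).symm (by omega) hb0 (by rw [add_comm]; exact h1)
      (fun u tu Hu => hX u tu Hu.symm)
    exact ⟨z, v, w, k1.symm, k2⟩
  · exfalso
    have := eq_of_dt_zero ha hb ca cb h
    rw [← this] at h1
    exact add_self_ne h0 h1
  · exact seg_aux d (dt a b).toNat a b ca cb ha hb (Int.toNat_of_nonneg h.le).symm (by omega) h0 h1 hX

end Pool.Agent.Lib.MP_d57abb_nt.Three
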