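import Pool.Agent.Lib.MP_d57abb_nt.Three.Num

/-!
# The main theorem for values modulo three
-/

namespace Pool.Agent.Lib.MP_d57abb_nt.Three

open Pool.Agent.Lib.MP_d57abb_nt

variable {h : ℕ → ZMod 3}

theorem h_one (hh : ∀ m n : ℕ, 0 < m → 0 < n → h (m * n) = h m + h n) : h 1 = 0 := by
  have := hh 1 1 one_pos one_pos
  rw [mul_one] at this
  simpa using this

theorem h_zero (hh : ∀ m n : ℕ, 0 < m → 0 < n → h (m * n) = h m + h n) :
    ∀ n : ℕ, 0 < n → (∀ q : ℕ, q.Prime → q ∣ n → h q = 0) → h n = 0 := by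
  intro n
  induction n using Nat.strong_induction_on with
  | _ n ih =>
    intro hn hq
    rcases Nat.lt_or_ge 1 n with h1 | h1
    · have hp := Nat.minFac_prime h1.ne'
      obtain ⟨m, hm⟩ := Nat.minFac_dvd n
      have hm0 : 0 < m := by
        rcases Nat.eq_zero_or_pos m with h0 | h0
        · rw [h0, mul_zero] at hm; omega
        · exact h0
      have hlt : m < n := by
        have h2 := hp.two_le
        calc m < 2 * m := by omega
          _ ≤ n.minFac * m := Nat.mul_le_mul_right _ h2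
          _ = n := hm.symm
      rw [hm, hh _ _ hp.pos hm0, hq _ hp (Nat.minFac_dvd n), zero_add]
      apply ih m hlt hm0
      intro q hqp hqm
      exact hq q hqp (hqm.trans ⟨n.minFac, by rw [mul_comm]; exact hm⟩)
    · have : n = 1 := by omega
      rw [this]; exact h_one hh

/-- the degenerate case: the value depends on `k` modulo `5` only -/
theorem degen (hh : ∀ m n : ℕ, 0 < m → 0 < n → h (m * n) = h m + h n)
    (h0 : ∀ p k : ℕ, p.Prime → p ≠ 5 → p ∣ k ^ 2 + 3 * k + 1 → h p = 0) (k : ℕ) :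
    h (k ^ 2 + 3 * k + 1) = if k % 5 = 1 then h 5 else 0 := by
  split_ifs with hk
  · obtain ⟨t, ht⟩ : ∃ t, k = 5 * t + 1 := ⟨k / 5, by omega⟩
    have e : k ^ 2 + 3 * k + 1 = 5 * (5 * t ^ 2 + 5 * t + 1) := by rw [ht]; ring
    rw [e, hh _ _ (by norm_num) (by positivity)]
    rw [h_zero hh (5 * t ^ 2 + 5 * t + 1) (by positivity) ?_, add_zero]
    intro q hq hd
    apply h0 q k hq ?_ (by rw [e]; exact Dvd.dvd.mul_left hd _)
    rintro rfl
    have : 5 ∣ 5 * t ^ 2 + 5 * t := by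
      rw [← mul_add]; exact Dvd.intro _ rfl
    have h3 := (Nat.dvd_add_right this).mp hd
    omega
  · apply h_zero hh _ (by positivity)
    intro q hq hd
    apply h0 q k hq ?_ hd
    rintro rfl
    have h5 : (k ^ 2 + 3 * k + 1) % 5 = 0 := Nat.mod_eq_zero_of_dvd hd
    have hk5 : k % 5 = 0 ∨ k % 5 = 2 ∨ k % 5 = 3 ∨ k % 5 = 4 := by omega
    rcases hk5 with h | h | h | h <;>
      norm_num [Nat.add_mod, Nat.pow_mod, Nat.mul_mod, h] at h5

theorem degen_count (hh : ∀ m n : ℕ, 0 < m → 0 < n → h (m * n) = h m + h n)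
    (h0 : ∀ p k : ℕ, p.Prime → p ≠ 5 → p ∣ k ^ 2 + 3 * k + 1 → h p = 0) (k₀ : ℕ) (N : ℕ) :
    N / 5 ≤ (F3 h (h (k₀ ^ 2 + 3 * k₀ + 1)) N).card := by
  set r : ℕ := if k₀ % 5 = 0 then 5 else k₀ % 5 with hr
  have hr1 : 1 ≤ r := by rw [hr]; split_ifs <;> omega
  have hr5 : r ≤ 5 := by rw [hr]; split_ifs <;> omega
  have hrm : r % 5 = k₀ % 5 := by rw [hr]; split_ifs <;> omega
  have hsub : (Finset.range (N / 5)).image (fun i => 5 * i + r) ⊆
      F3 h (h (k₀ ^ 2 + 3 * k₀ + 1)) N := by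
    intro x hx
    obtain ⟨i, hi, rfl⟩ := Finset.mem_image.mp hx
    have hi' := Finset.mem_range.mp hi
    unfold F3
    rw [Finset.mem_filter, Finset.mem_Icc]
    refine ⟨by omega, ?_⟩
    rw [degen hh h0, degen hh h0]
    have : (5 * i + r) % 5 = k₀ % 5 := by omega
    rw [this]
  calc N / 5 = ((Finset.range (N / 5)).image (fun i => 5 * i + r)).card := by
        rw [Finset.card_image_of_injective _ (fun a b hab => by
            have h1 : 5 * a + r = 5 * b + r := hab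
            omega),
          Finset.card_range]
    _ ≤ _ := Finset.card_le_card hsub

theorem degen_case (hh : ∀ m n : ℕ, 0 < m → 0 < n → h (m * n) = h m + h n)
    (h0 : ∀ p k : ℕ, p.Prime → p ≠ 5 → p ∣ k ^ 2 + 3 * k + 1 → h p = 0) (k₀ : ℕ) :
    ∃ N₀ : ℕ, ∀ N ≥ N₀,
      (N : ℝ) / Real.log N ^ 33 ≤ (F3 h (h (k₀ ^ 2 + 3 * k₀ + 1)) N).card := by
  have ht : Filter.Tendsto (fun N : ℕ => Real.log (N : ℝ)) Filter.atTop Filter.atTop :=
    Real.tendsto_log_atTop.comp tendsto_natCast_atTop_atTop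
  obtain ⟨N₀, hN₀⟩ := Filter.eventually_atTop.mp
    ((ht.eventually_ge_atTop 10).and (Filter.eventually_ge_atTop 10))
  refine ⟨N₀, fun N hN => ?_⟩
  obtain ⟨e1, e2⟩ := hN₀ N hN
  have hN0 : (0 : ℝ) < N := by exact_mod_cast (by omega : 0 < N)
  have h1 : (N : ℝ) / 10 ≤ ((N / 5 : ℕ) : ℝ) := by
    have h2 : N ≤ 10 * (N / 5) := by omega
    have h3 : (N : ℝ) ≤ 10 * ((N / 5 : ℕ) : ℝ) := by exact_mod_cast h2
    linarith
  have h2 : (N : ℝ) / Real.log N ^ 33 ≤ N / 10 := by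
    apply div_le_div_of_nonneg_left hN0.le (by norm_num)
    calc (10 : ℝ) ≤ Real.log N := e1
      _ ≤ Real.log N ^ 33 := le_self_pow₀ (by linarith) (by norm_num)
  have h3 : ((N / 5 : ℕ) : ℝ) ≤ (F3 h (h (k₀ ^ 2 + 3 * k₀ + 1)) N).card := by
    exact_mod_cast degen_count hh h0 k₀ N
  linarith

/-- if `h` does not vanish at a prime `p ≠ 5` dividing some `k² + 3 k + 1` then all three values
are taken often -/
theorem all_three (hh : ∀ m n : ℕ, 0 < m → 0 < n → h (m * n) = h m + h n) {p k : ℕ}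
    (hp : p.Prime) (h5 : p ≠ 5) (hd : p ∣ k ^ 2 + 3 * k + 1) (hne : h p ≠ 0) (c : ZMod 3) :
    ∃ N₀ : ℕ, ∀ N ≥ N₀, (N : ℝ) / Real.log N ^ 33 ≤ (F3 h c N).card := by
  obtain ⟨ϖ, hϖ⟩ := exists_PI hp h5 hd
  refine main_case hϖ hh ?_ c
  unfold lam
  rw [hϖ.nm]
  simpa using hne

theorem main (hh : ∀ m n : ℕ, 0 < m → 0 < n → h (m * n) = h m + h n) (k₀ : ℕ) :
    ∃ N₀ : ℕ, ∀ N ≥ N₀,
      (N : ℝ) / Real.log N ^ 33 ≤ (F3 h (h (k₀ ^ 2 + 3 * k₀ + 1)) N).card := by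
  by_cases h0 : ∀ p k : ℕ, p.Prime → p ≠ 5 → p ∣ k ^ 2 + 3 * k + 1 → h p = 0
  · exact degen_case hh h0 k₀
  · push Not at h0
    obtain ⟨p, k, hp, h5, hd, hne⟩ := h0
    exact all_three hh hp h5 hd hne _

end Pool.Agent.Lib.MP_d57abb_nt.Three
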