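import Pool.Agent.Lib.MP_d57abb_nt.Farey
import Pool.Agent.Lib.MP_d57abb_nt.Uniq

/-!
# Directions of primitive vectors are separated
-/

open Real

namespace Pool.Agent.Lib.MP_d57abb_nt.Three

open Pool.Agent.Lib.MP_d57abb_nt

theorem dt_self (a : ℤ × ℤ) : dt a a = 0 := by unfold dt; ring
theorem dt_comm (a b : ℤ × ℤ) : dt a b = - dt b a := by unfold dt; ring

theorem coprime_left {a b : ℤ × ℤ} (h : dt a b = 1) : IsCoprime a.1 a.2 :=
  ⟨b.2, -b.1, by unfold dt at h; linarith⟩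

theorem coprime_right {a b : ℤ × ℤ} (h : dt a b = 1) : IsCoprime b.1 b.2 :=
  ⟨-a.2, a.1, by unfold dt at h; linarith⟩

/-- a vector parallel to a primitive one is a multiple of it -/
theorem smul_of_dt_zero {a u : ℤ × ℤ} (ca : IsCoprime a.1 a.2) (h : dt a u = 0) :
    ∃ n : ℤ, u = n • a := by
  obtain ⟨p, q, hpq⟩ := ca
  have h3 := cramer a (-q, p) u
  have h4 : dt a (-q, p) = 1 := by simp only [dt]; linarith
  rw [h4, h, zero_smul, add_zero, one_smul] at h3
  exact ⟨_, h3⟩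

theorem eq_of_dt_zero {a u : ℤ × ℤ} (ha : TP a) (hu : TP u) (ca : IsCoprime a.1 a.2)
    (cu : IsCoprime u.1 u.2) (h : dt a u = 0) : a = u := by
  obtain ⟨n, hn⟩ := smul_of_dt_zero ca h
  have hn0 : 0 < n := by
    have h1 := hu.1
    rw [hn, pp_smul] at h1
    have h2 : (0 : ℝ) < n := (mul_pos_iff_of_pos_right ha.1).mp h1
    exact_mod_cast h2
  have hn1 : n ∣ 1 := by
    obtain ⟨x, y, hxy⟩ := cu
    rw [hn] at hxy
    simp only [Prod.smul_fst, Prod.smul_snd, smul_eq_mul] at hxy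
    exact ⟨x * a.1 + y * a.2, by linarith⟩
  have hn2 : n = 1 := by
    have := Int.le_of_dvd one_pos hn1
    omega
  rw [hn, hn2, one_smul]

theorem dt_sq_le {a u : ℤ × ℤ} (ha : TP a) (hu : TP u) {η : ℝ} (h1 : η ≤ 1)
    (h : |an a - an u| ≤ η) : 5 * (dt a u : ℝ) ^ 2 ≤ 2 * η ^ 2 * nm a * nm u := by
  obtain ⟨a1, a2⟩ := ha
  obtain ⟨u1, u2⟩ := hu
  set t : ℝ := an u - an a with ht
  have htη : |t| ≤ η := by rw [ht, abs_sub_comm]; exact h
  have ht1 : |t| ≤ 1 := htη.trans h1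
  set P := pp a * qq u with hP
  set P' := pp u * qq a with hP'
  have hP0 : 0 < P := mul_pos a1 u2
  have hP'0 : 0 < P' := mul_pos u1 a2
  have e1 : P' = Real.exp t * P := by
    have : t = Real.log P' - Real.log P := by
      rw [hP, hP', Real.log_mul u1.ne' a2.ne', Real.log_mul a1.ne' u2.ne', ht]
      unfold an; ring
    rw [this, Real.exp_sub, Real.exp_log hP'0, Real.exp_log hP0]
    field_simp
  have e2 : P = Real.exp (-t) * P' := by
    rw [e1, ← mul_assoc, ← Real.exp_add]; simp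
  have e3 : P * P' = nm a * nm u := by
    rw [hP, hP', ← pp_mul_qq, ← pp_mul_qq]; ring
  have e4 : (dt a u : ℝ) * √5 = P' - P := by rw [dt_eq]
  have e5 : 5 * (dt a u : ℝ) ^ 2 = (P' - P) ^ 2 := by
    rw [← e4, mul_pow, sq √5, sqrt5_sq]; ring
  have b1 : Real.exp t - 1 ≤ t + t ^ 2 := by
    have := Real.abs_exp_sub_one_sub_id_le ht1
    rw [abs_le] at this
    linarith [this.2]
  have b2 : Real.exp (-t) - 1 ≤ -t + t ^ 2 := by
    have := Real.abs_exp_sub_one_sub_id_le (x := -t) (by rw [abs_neg]; exact ht1)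
    rw [abs_le, neg_sq] at this
    linarith [this.2]
  have e6 : (P' - P) ^ 2 = P * P' * (Real.exp t + Real.exp (-t) - 2) := by
    have k1 : P' * P' = Real.exp t * (P * P') := by
      calc P' * P' = (Real.exp t * P) * P' := by rw [← e1]
        _ = _ := by ring
    have k2 : P * P = Real.exp (-t) * (P * P') := by
      calc P * P = (Real.exp (-t) * P') * P := by rw [← e2]
        _ = _ := by ring
    calc (P' - P) ^ 2 = P' * P' + P * P - 2 * (P * P') := by ring
      _ = _ := by rw [k1, k2]; ring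
  have ht2 : t ^ 2 ≤ η ^ 2 := by
    rw [← sq_abs t]; exact pow_le_pow_left₀ (abs_nonneg _) htη 2
  rw [e5, e6, e3]
  have h5 : (0 : ℝ) ≤ nm a * nm u := by rw [← e3]; positivity
  calc (nm a : ℝ) * nm u * (Real.exp t + Real.exp (-t) - 2) ≤ nm a * nm u * (2 * η ^ 2) :=
        mul_le_mul_of_nonneg_left (by linarith) h5
    _ = 2 * η ^ 2 * nm a * nm u := by ring

end Pool.Agent.Lib.MP_d57abb_nt.Three
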